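import Mathlib

set_option autoImplicit false

namespace Pool.Agent.Helper18.PTree

open Finset

/-- Number of elements of `X` congruent to `x` modulo `p ^ v`. -/
def cnt (p : ℕ) (X : Finset ℤ) (x : ℤ) (v : ℕ) : ℕ :=
  (X.filter (fun y => (p : ℤ) ^ v ∣ y - x)).card

theorem cnt_zero (p : ℕ) (X : Finset ℤ) (x : ℤ) : cnt p X x 0 = X.card := by
  simp [cnt]

theorem cnt_succ_le (p : ℕ) (X : Finset ℤ) (x : ℤ) (v : ℕ) :
    cnt p X x (v + 1) ≤ cnt p X x v := by
  unfold cnt
  apply Finset.card_le_card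
  intro y hy
  rw [Finset.mem_filter] at hy ⊢
  exact ⟨hy.1, (pow_dvd_pow _ (Nat.le_succ v)).trans hy.2⟩

theorem one_le_cnt (p : ℕ) {X : Finset ℤ} {x : ℤ} (hx : x ∈ X) (v : ℕ) :
    1 ≤ cnt p X x v := by
  unfold cnt
  rw [Nat.one_le_iff_ne_zero, Finset.card_ne_zero]
  exact ⟨x, by simp [hx]⟩

theorem cnt_congr (p : ℕ) (X : Finset ℤ) {x y : ℤ} {v : ℕ} (h : (p : ℤ) ^ v ∣ x - y) :
    cnt p X x v = cnt p X y v := by
  unfold cnt
  congr 1
  apply Finset.filter_congr
  intro z _
  constructor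
  · intro hz
    have : z - y = (z - x) + (x - y) := by ring
    rw [this]; exact dvd_add hz h
  · intro hz
    have : z - x = (z - y) - (x - y) := by ring
    rw [this]; exact dvd_sub hz h

theorem cnt_add_le (p : ℕ) (X : Finset ℤ) {x y : ℤ} {v : ℕ} (h : (p : ℤ) ^ v ∣ x - y)
    (h' : ¬ (p : ℤ) ^ (v + 1) ∣ x - y) :
    cnt p X x (v + 1) + cnt p X y (v + 1) ≤ cnt p X x v := by
  have hy : cnt p X y (v + 1) = (X.filter (fun z => (p : ℤ) ^ (v + 1) ∣ z - y)).card := rfl
  unfold cnt
  rw [← Finset.card_union_of_disjoint]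
  · apply Finset.card_le_card
    intro z hz
    rw [Finset.mem_union, Finset.mem_filter, Finset.mem_filter] at hz
    rw [Finset.mem_filter]
    rcases hz with ⟨hz1, hz2⟩ | ⟨hz1, hz2⟩
    · exact ⟨hz1, (pow_dvd_pow _ (Nat.le_succ v)).trans hz2⟩
    · refine ⟨hz1, ?_⟩
      have e : z - x = (z - y) - (x - y) := by ring
      rw [e]
      exact dvd_sub ((pow_dvd_pow _ (Nat.le_succ v)).trans hz2) h
  · rw [Finset.disjoint_left]
    intro z hz1 hz2
    rw [Finset.mem_filter] at hz1 hz2
    apply h'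
    have e : x - y = (z - y) - (z - x) := by ring
    rw [e]
    exact dvd_sub hz2.2 hz1.2

/-- Levels below `V` where the count drops by the factor `c`. -/
noncomputable def drops (p : ℕ) (X : Finset ℤ) (c : ℝ) (V : ℕ) (x : ℤ) : Finset ℕ :=
  (range V).filter (fun v => (cnt p X x (v + 1) : ℝ) ≤ c * cnt p X x v)

theorem mem_drops {p : ℕ} {X : Finset ℤ} {c : ℝ} {V : ℕ} {x : ℤ} {v : ℕ} :
    v ∈ drops p X c V x ↔ v < V ∧ (cnt p X x (v + 1) : ℝ) ≤ c * cnt p X x v := by
  simp [drops]

theorem cnt_le_pow_drops (p : ℕ) (X : Finset ℤ) {c : ℝ} (hc : 0 ≤ c) (V : ℕ) (x : ℤ) :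
    (cnt p X x V : ℝ) ≤ c ^ (drops p X c V x).card * X.card := by
  induction V with
  | zero => simp [drops, cnt_zero]
  | succ V ih =>
    by_cases h : (cnt p X x (V + 1) : ℝ) ≤ c * cnt p X x V
    · have e : drops p X c (V + 1) x = insert V (drops p X c V x) := by
        ext v
        rw [Finset.mem_insert, mem_drops, mem_drops]
        constructor
        · rintro ⟨h1, h2⟩
          by_cases hv : v = V
          · exact Or.inl hv
          · exact Or.inr ⟨by omega, h2⟩
        · rintro (rfl | ⟨h1, h2⟩)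
          · exact ⟨by omega, h⟩
          · exact ⟨by omega, h2⟩
      have hn : V ∉ drops p X c V x := by
        rw [mem_drops]; omega
      rw [e, Finset.card_insert_of_notMem hn, pow_succ]
      calc (cnt p X x (V + 1) : ℝ) ≤ c * cnt p X x V := h
        _ ≤ c * (c ^ (drops p X c V x).card * X.card) := mul_le_mul_of_nonneg_left ih hc
        _ = _ := by ring
    · have e : drops p X c (V + 1) x = drops p X c V x := by
        ext v
        rw [mem_drops, mem_drops]
        constructor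
        · rintro ⟨h1, h2⟩
          refine ⟨?_, h2⟩
          by_contra hv
          have : v = V := by omega
          subst this
          exact h h2
        · rintro ⟨h1, h2⟩
          exact ⟨by omega, h2⟩
      rw [e]
      refine le_trans ?_ ih
      exact_mod_cast cnt_succ_le p X x V

theorem one_le_pow_drops (p : ℕ) {X : Finset ℤ} {c : ℝ} (hc : 0 ≤ c) (V : ℕ) {x : ℤ}
    (hx : x ∈ X) : (1 : ℝ) ≤ c ^ (drops p X c V x).card * X.card := by
  refine le_trans ?_ (cnt_le_pow_drops p X hc V x)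
  exact_mod_cast one_le_cnt p hx V

/-- The level at which two integers separate. -/
def lev (p : ℕ) (x y : ℤ) : ℕ := padicValInt p (x - y)

theorem lev_comm (p : ℕ) (x y : ℤ) : lev p x y = lev p y x := by
  unfold lev padicValInt
  rw [← Int.natAbs_neg]
  congr 2
  ring

theorem pow_lev_dvd {p : ℕ} [Fact p.Prime] (x y : ℤ) : (p : ℤ) ^ lev p x y ∣ x - y := by
  unfold lev
  exact padicValInt_dvd _

theorem dvd_iff_le_lev {p : ℕ} [Fact p.Prime] {x y : ℤ} (h : x ≠ y) (n : ℕ) :
    (p : ℤ) ^ n ∣ x - y ↔ n ≤ lev p x y := by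
  unfold lev
  rw [padicValInt_dvd_iff]
  constructor
  · rintro (h' | h')
    · exact absurd (sub_eq_zero.1 h') h
    · exact h'
  · intro h'; exact Or.inr h'

theorem not_pow_succ_lev_dvd {p : ℕ} [Fact p.Prime] {x y : ℤ} (h : x ≠ y) :
    ¬ (p : ℤ) ^ (lev p x y + 1) ∣ x - y := by
  rw [dvd_iff_le_lev h]; omega

theorem lev_eq_of_not_dvd {p : ℕ} [Fact p.Prime] {x y : ℤ} {v : ℕ} (h : x ≠ y)
    (h1 : (p : ℤ) ^ v ∣ x - y) (h2 : ¬ (p : ℤ) ^ (v + 1) ∣ x - y) : lev p x y = v := by
  rw [dvd_iff_le_lev h] at h1 h2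
  omega

/-- Selection lemma: from a set `R` of integers in which every splitting outside the levels `L`
is binary and costs a token for both sides, one can select a large subset that splits only at
levels of `L`. -/
theorem select_aux (p : ℕ) [Fact p.Prime] (L : Finset ℕ) (n : ℕ) :
    ∀ (R : Finset ℤ) (τ : ℤ → Finset ℕ), R.card = n →
      (∀ x ∈ R, ∀ y ∈ R, x ≠ y → lev p x y ∉ L → lev p x y ∈ τ x) →
      (∀ x ∈ R, ∀ y ∈ R, ∀ z ∈ R, x ≠ y → y ≠ z → x ≠ z → lev p x y = lev p x z →
        lev p y z = lev p x z → lev p x y ∈ L) →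
      ∃ R' ⊆ R, (∀ x ∈ R', ∀ y ∈ R', x ≠ y → lev p x y ∈ L) ∧
        ∑ x ∈ R, (1 / 2 : ℝ) ^ (τ x).card ≤ R'.card := by
  classical
  induction n using Nat.strong_induction_on with
  | _ n ih =>
    intro R τ hn h1 h2
    by_cases hR : R.card ≤ 1
    · refine ⟨R, Finset.Subset.refl _, ?_, ?_⟩
      · intro x hx y hy hxy
        exact absurd (Finset.card_le_one.1 hR x hx y hy) hxy
      · calc ∑ x ∈ R, (1 / 2 : ℝ) ^ (τ x).card ≤ ∑ x ∈ R, (1 : ℝ) := by
              apply Finset.sum_le_sum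
              intro x _
              apply pow_le_one₀ <;> norm_num
          _ = R.card := by simp
    · -- choose a pair of minimal level
      have hne : (R.offDiag).Nonempty := by
        obtain ⟨a, ha, b, hb, hab⟩ := Finset.one_lt_card.1 (by omega : 1 < R.card)
        exact ⟨(a, b), by rw [Finset.mem_offDiag]; exact ⟨ha, hb, hab⟩⟩
      obtain ⟨⟨k0, l0⟩, hkl, hmin⟩ := Finset.exists_min_image R.offDiag
        (fun q => lev p q.1 q.2) hne
      rw [Finset.mem_offDiag] at hkl
      obtain ⟨hk0, hl0, hkl0⟩ := hkl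
      simp only at hk0 hl0 hkl0 hmin
      set v := lev p k0 l0 with hv
      have hmin' : ∀ x ∈ R, ∀ y ∈ R, x ≠ y → v ≤ lev p x y := by
        intro x hx y hy hxy
        exact hmin (x, y) (by rw [Finset.mem_offDiag]; exact ⟨hx, hy, hxy⟩)
      have hdv : ∀ x ∈ R, ∀ y ∈ R, (p : ℤ) ^ v ∣ x - y := by
        intro x hx y hy
        by_cases hxy : x = y
        · subst hxy; simp
        · rw [dvd_iff_le_lev hxy]; exact hmin' x hx y hy hxy
      let R1 := R.filter (fun x => (p : ℤ) ^ (v + 1) ∣ x - k0)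
      let R2 := R.filter (fun x => ¬ (p : ℤ) ^ (v + 1) ∣ x - k0)
      have hR12 : R1.card + R2.card = R.card := Finset.card_filter_add_card_filter_not _
      have hk0R1 : k0 ∈ R1 := by simp [R1, hk0]
      have hl0R2 : l0 ∈ R2 := by
        simp only [R2, Finset.mem_filter]
        refine ⟨hl0, ?_⟩
        have := not_pow_succ_lev_dvd (p := p) (Ne.symm hkl0)
        rw [lev_comm, ← hv] at this
        exact this
      have hR1pos : 0 < R1.card := Finset.card_pos.2 ⟨k0, hk0R1⟩
      have hR2pos : 0 < R2.card := Finset.card_pos.2 ⟨l0, hl0R2⟩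
      have hR1sub : R1 ⊆ R := Finset.filter_subset _ _
      have hR2sub : R2 ⊆ R := Finset.filter_subset _ _
      have hcross : ∀ x ∈ R1, ∀ y ∈ R2, x ≠ y ∧ lev p x y = v := by
        intro x hx y hy
        simp only [R1, R2, Finset.mem_filter] at hx hy
        have hxy : x ≠ y := by
          rintro rfl
          exact hy.2 hx.2
        refine ⟨hxy, lev_eq_of_not_dvd hxy (hdv x hx.1 y hy.1) ?_⟩
        intro h
        apply hy.2
        have e : y - k0 = (x - k0) - (x - y) := by ring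
        rw [e]
        exact dvd_sub hx.2 h
      have hin1 : ∀ x ∈ R1, ∀ y ∈ R1, x ≠ y → v < lev p x y := by
        intro x hx y hy hxy
        simp only [R1, Finset.mem_filter] at hx hy
        have : (p : ℤ) ^ (v + 1) ∣ x - y := by
          have e : x - y = (x - k0) - (y - k0) := by ring
          rw [e]
          exact dvd_sub hx.2 hy.2
        rw [dvd_iff_le_lev hxy] at this
        omega
      have hsum : ∀ f : ℤ → ℝ, ∑ x ∈ R, f x = ∑ x ∈ R1, f x + ∑ x ∈ R2, f x := by
        intro f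
        exact (Finset.sum_filter_add_sum_filter_not R _ f).symm
      by_cases hvL : v ∈ L
      · obtain ⟨S1, hS1, hS1', hS1''⟩ := ih R1.card (by omega) R1 τ rfl
          (fun x hx y hy => h1 x (hR1sub hx) y (hR1sub hy))
          (fun x hx y hy z hz => h2 x (hR1sub hx) y (hR1sub hy) z (hR1sub hz))
        obtain ⟨S2, hS2, hS2', hS2''⟩ := ih R2.card (by omega) R2 τ rfl
          (fun x hx y hy => h1 x (hR2sub hx) y (hR2sub hy))
          (fun x hx y hy z hz => h2 x (hR2sub hx) y (hR2sub hy) z (hR2sub hz))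
        have hdisj : Disjoint S1 S2 := by
          rw [Finset.disjoint_left]
          intro x hx1 hx2
          exact (hcross x (hS1 hx1) x (hS2 hx2)).1 rfl
        refine ⟨S1 ∪ S2, Finset.union_subset (hS1.trans hR1sub) (hS2.trans hR2sub), ?_, ?_⟩
        · intro x hx y hy hxy
          rw [Finset.mem_union] at hx hy
          rcases hx with hx | hx <;> rcases hy with hy | hy
          · exact hS1' x hx y hy hxy
          · rw [(hcross x (hS1 hx) y (hS2 hy)).2]; exact hvL
          · rw [lev_comm, (hcross y (hS1 hy) x (hS2 hx)).2]; exact hvL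
          · exact hS2' x hx y hy hxy
        · rw [hsum, Finset.card_union_of_disjoint hdisj]
          push_cast
          exact add_le_add hS1'' hS2''
      · have hin2 : ∀ x ∈ R2, ∀ y ∈ R2, x ≠ y → v < lev p x y := by
          intro x hx y hy hxy
          have hle := hmin' x (hR2sub hx) y (hR2sub hy) hxy
          rcases Nat.lt_or_ge v (lev p x y) with h | h
          · exact h
          · exfalso
            have e1 := hcross k0 hk0R1 x hx
            have e2 := hcross k0 hk0R1 y hy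
            have e3 : lev p x y = v := by omega
            have := h2 k0 hk0 x (hR2sub hx) y (hR2sub hy) e1.1 hxy e2.1
              (by rw [e1.2, e2.2]) (by rw [e3, e2.2])
            rw [e1.2] at this
            exact hvL this
        have hvτ : ∀ x ∈ R, v ∈ τ x := by
          intro x hx
          by_cases hx1 : x ∈ R1
          · have e := hcross x hx1 l0 hl0R2
            have := h1 x hx l0 hl0 e.1 (by rw [e.2]; exact hvL)
            rwa [e.2] at this
          · have hx2 : x ∈ R2 := by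
              simp only [R1, R2, Finset.mem_filter, not_and] at hx1 ⊢
              exact ⟨hx, hx1 hx⟩
            have e := hcross k0 hk0R1 x hx2
            have := h1 x hx k0 hk0 (Ne.symm e.1) (by rw [lev_comm, e.2]; exact hvL)
            rwa [lev_comm, e.2] at this
        obtain ⟨S1, hS1, hS1', hS1''⟩ := ih R1.card (by omega) R1 (fun x => (τ x).erase v) rfl
          (fun x hx y hy hxy hL => Finset.mem_erase.2
            ⟨by have := hin1 x hx y hy hxy; omega, h1 x (hR1sub hx) y (hR1sub hy) hxy hL⟩)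
          (fun x hx y hy z hz => h2 x (hR1sub hx) y (hR1sub hy) z (hR1sub hz))
        obtain ⟨S2, hS2, hS2', hS2''⟩ := ih R2.card (by omega) R2 (fun x => (τ x).erase v) rfl
          (fun x hx y hy hxy hL => Finset.mem_erase.2
            ⟨by have := hin2 x hx y hy hxy; omega, h1 x (hR2sub hx) y (hR2sub hy) hxy hL⟩)
          (fun x hx y hy z hz => h2 x (hR2sub hx) y (hR2sub hy) z (hR2sub hz))
        have hhalf : ∀ x ∈ R, (1 / 2 : ℝ) ^ (τ x).card
            = 1 / 2 * (1 / 2 : ℝ) ^ ((τ x).erase v).card := by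
          intro x hx
          have : (τ x).card = ((τ x).erase v).card + 1 := by
            rw [Finset.card_erase_add_one (hvτ x hx)]
          rw [this, pow_succ]
          ring
        have hbound : ∑ x ∈ R, (1 / 2 : ℝ) ^ (τ x).card ≤ 1 / 2 * (S1.card + S2.card) := by
          rw [Finset.sum_congr rfl hhalf, ← Finset.mul_sum, hsum]
          exact mul_le_mul_of_nonneg_left (add_le_add hS1'' hS2'') (by norm_num)
        rcases le_total S1.card S2.card with h | h
        · refine ⟨S2, hS2.trans hR2sub, hS2', hbound.trans ?_⟩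
          have : (S1.card : ℝ) ≤ S2.card := by exact_mod_cast h
          linarith
        · refine ⟨S1, hS1.trans hR1sub, hS1', hbound.trans ?_⟩
          have : (S2.card : ℝ) ≤ S1.card := by exact_mod_cast h
          linarith

theorem select (p : ℕ) [Fact p.Prime] (L : Finset ℕ) (W : ℕ) (R : Finset ℤ)
    (τ : ℤ → Finset ℕ) (hW : ∀ x ∈ R, (τ x).card ≤ W)
    (h1 : ∀ x ∈ R, ∀ y ∈ R, x ≠ y → lev p x y ∉ L → lev p x y ∈ τ x)
    (h2 : ∀ x ∈ R, ∀ y ∈ R, ∀ z ∈ R, x ≠ y → y ≠ z → x ≠ z → lev p x y = lev p x z →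
        lev p y z = lev p x z → lev p x y ∈ L) :
    ∃ R' ⊆ R, (∀ x ∈ R', ∀ y ∈ R', x ≠ y → lev p x y ∈ L) ∧ R.card ≤ 2 ^ W * R'.card := by
  obtain ⟨R', hR', h3, h4⟩ := select_aux p L R.card R τ rfl h1 h2
  refine ⟨R', hR', h3, ?_⟩
  have h5 : (R.card : ℝ) * (1 / 2 : ℝ) ^ W ≤ R'.card := by
    refine le_trans ?_ h4
    rw [← nsmul_eq_mul, ← Finset.sum_const]
    apply Finset.sum_le_sum
    intro x hx
    exact pow_le_pow_of_le_one (by norm_num) (by norm_num) (hW x hx)
  have h6 : (R.card : ℝ) ≤ 2 ^ W * R'.card := by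
    have : (R.card : ℝ) = 2 ^ W * ((R.card : ℝ) * (1 / 2 : ℝ) ^ W) := by
      have : (2 : ℝ) ^ W * (1 / 2) ^ W = 1 := by
        rw [← mul_pow]; norm_num
      calc (R.card : ℝ) = R.card * (2 ^ W * (1 / 2) ^ W) := by rw [this, mul_one]
        _ = _ := by ring
    rw [this]
    exact mul_le_mul_of_nonneg_left h5 (by positivity)
  exact_mod_cast h6

/-- Selection for several primes. -/
theorem select_multi (Q : Finset ℕ) (hQ : ∀ p ∈ Q, p.Prime) (L : ℕ → Finset ℕ) (W : ℕ)
    (τ : ℕ → ℤ → Finset ℕ) (R : Finset ℤ) (hW : ∀ p ∈ Q, ∀ x ∈ R, (τ p x).card ≤ W)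
    (h1 : ∀ p ∈ Q, ∀ x ∈ R, ∀ y ∈ R, x ≠ y → lev p x y ∉ L p → lev p x y ∈ τ p x)
    (h2 : ∀ p ∈ Q, ∀ x ∈ R, ∀ y ∈ R, ∀ z ∈ R, x ≠ y → y ≠ z → x ≠ z →
      lev p x y = lev p x z → lev p y z = lev p x z → lev p x y ∈ L p) :
    ∃ R' ⊆ R, (∀ p ∈ Q, ∀ x ∈ R', ∀ y ∈ R', x ≠ y → lev p x y ∈ L p) ∧
      R.card ≤ (2 ^ W) ^ Q.card * R'.card := by
  classical
  induction Q using Finset.induction_on with
  | empty => exact ⟨R, Finset.Subset.refl _, by simp, by simp⟩
  | insert p Q hp ih =>
    obtain ⟨R1, hR1, h3, h4⟩ := ih (fun q hq => hQ q (Finset.mem_insert_of_mem hq))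
      (fun q hq => hW q (Finset.mem_insert_of_mem hq))
      (fun q hq => h1 q (Finset.mem_insert_of_mem hq))
      (fun q hq => h2 q (Finset.mem_insert_of_mem hq))
    have : Fact p.Prime := ⟨hQ p (Finset.mem_insert_self _ _)⟩
    have hpm := Finset.mem_insert_self p Q
    obtain ⟨R2, hR2, h5, h6⟩ := select p (L p) W R1 (τ p) (fun x hx => hW p hpm x (hR1 hx))
      (fun x hx y hy => h1 p hpm x (hR1 hx) y (hR1 hy))
      (fun x hx y hy z hz => h2 p hpm x (hR1 hx) y (hR1 hy) z (hR1 hz))
    refine ⟨R2, hR2.trans hR1, ?_, ?_⟩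
    · intro q hq x hx y hy hxy
      rcases Finset.mem_insert.1 hq with rfl | hq
      · exact h5 x hx y hy hxy
      · exact h3 q hq x (hR2 hx) y (hR2 hy) hxy
    · rw [Finset.card_insert_of_notMem hp, pow_succ]
      calc R.card ≤ (2 ^ W) ^ Q.card * R1.card := h4
        _ ≤ (2 ^ W) ^ Q.card * (2 ^ W * R2.card) := Nat.mul_le_mul_left _ h6
        _ = _ := by ring

end Pool.Agent.Helper18.PTree
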