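import Mathlib
import Pool.Agent.Helper18.PTree

set_option autoImplicit false

namespace Pool.Agent.Helper18.Additive

open Finset Pool.Agent.Helper18.PTree
open scoped Pointwise

section Levels

variable (p : ℕ) (D : Finset ℤ) (θ : ℝ) (V : ℕ)

/-- Number of elements for which the level `l` is irregular. -/
noncomputable def irrCount (l : ℕ) : ℕ := (D.filter (fun x => l ∈ drops p D (1 - θ) V x)).card

/-- Popular irregular levels. -/
noncomputable def pop (s m : ℕ) : Finset ℕ :=
  (range V).filter (fun l => D.card < 4 * s * m * irrCount p D θ V l)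

theorem sum_irrCount {m : ℕ} (hm : ∀ x ∈ D, (drops p D (1 - θ) V x).card ≤ m) :
    ∑ l ∈ range V, irrCount p D θ V l ≤ m * D.card := by
  classical
  have h1 : ∀ l, irrCount p D θ V l = ∑ x ∈ D, if l ∈ drops p D (1 - θ) V x then 1 else 0 := by
    intro l
    unfold irrCount
    rw [Finset.card_filter]
  simp_rw [h1]
  rw [Finset.sum_comm]
  calc ∑ x ∈ D, ∑ l ∈ range V, (if l ∈ drops p D (1 - θ) V x then 1 else 0)
      ≤ ∑ x ∈ D, m := by
        apply Finset.sum_le_sum
        intro x hx
        rw [← Finset.card_filter]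
        refine le_trans (Finset.card_le_card ?_) (hm x hx)
        intro l hl
        rw [Finset.mem_filter] at hl
        exact hl.2
    _ = m * D.card := by rw [Finset.sum_const, smul_eq_mul, mul_comm]

theorem card_pop_le {s m : ℕ} (hm : ∀ x ∈ D, (drops p D (1 - θ) V x).card ≤ m) :
    (pop p D θ V s m).card ≤ 4 * s * m * m := by
  classical
  rcases D.eq_empty_or_nonempty with rfl | hD
  · have : pop p ∅ θ V s m = ∅ := by
      unfold pop irrCount
      simp
    rw [this]; simp
  · have hpos : 0 < D.card := Finset.card_pos.2 hD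
    have h1 : (pop p D θ V s m).card * D.card ≤ 4 * s * m * (m * D.card) := by
      calc (pop p D θ V s m).card * D.card = ∑ l ∈ pop p D θ V s m, D.card := by
            rw [Finset.sum_const, smul_eq_mul]
        _ ≤ ∑ l ∈ pop p D θ V s m, 4 * s * m * irrCount p D θ V l := by
            apply Finset.sum_le_sum
            intro l hl
            unfold pop at hl
            rw [Finset.mem_filter] at hl
            exact hl.2.le
        _ = 4 * s * m * ∑ l ∈ pop p D θ V s m, irrCount p D θ V l := by rw [Finset.mul_sum]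
        _ ≤ 4 * s * m * ∑ l ∈ range V, irrCount p D θ V l := by
            apply Nat.mul_le_mul_left
            apply Finset.sum_le_sum_of_subset
            exact Finset.filter_subset _ _
        _ ≤ 4 * s * m * (m * D.card) := Nat.mul_le_mul_left _ (sum_irrCount p D θ V hm)
    have h2 : (pop p D θ V s m).card * D.card ≤ (4 * s * m * m) * D.card := by
      calc _ ≤ _ := h1
        _ = _ := by ring
    exact Nat.le_of_mul_le_mul_right h2 hpos

/-- Pairs sharing an unpopular irregular level. -/
noncomputable def badPairs (s m : ℕ) : Finset (ℤ × ℤ) :=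
  (D ×ˢ D).filter (fun q => ¬ (drops p D (1 - θ) V q.1 ∩ drops p D (1 - θ) V q.2 ⊆
    pop p D θ V s m))

theorem card_badPairs_le {s m : ℕ} (hm1 : 1 ≤ m)
    (hm : ∀ x ∈ D, (drops p D (1 - θ) V x).card ≤ m) :
    4 * s * (badPairs p D θ V s m).card ≤ D.card * D.card := by
  classical
  have h1 : (badPairs p D θ V s m).card ≤
      ∑ l ∈ (range V).filter (fun l => l ∉ pop p D θ V s m),
        irrCount p D θ V l * irrCount p D θ V l := by
    have hsub : badPairs p D θ V s m ⊆
        ((range V).filter (fun l => l ∉ pop p D θ V s m)).biUnion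
          (fun l => (D.filter (fun x => l ∈ drops p D (1 - θ) V x)) ×ˢ
            (D.filter (fun x => l ∈ drops p D (1 - θ) V x))) := by
      intro q hq
      unfold badPairs at hq
      rw [Finset.mem_filter, Finset.mem_product] at hq
      obtain ⟨⟨hq1, hq2⟩, hq3⟩ := hq
      rw [Finset.not_subset] at hq3
      obtain ⟨l, hl, hl'⟩ := hq3
      rw [Finset.mem_inter] at hl
      rw [Finset.mem_biUnion]
      refine ⟨l, ?_, ?_⟩
      · rw [Finset.mem_filter, Finset.mem_range]
        exact ⟨(mem_drops.1 hl.1).1, hl'⟩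
      · rw [Finset.mem_product, Finset.mem_filter, Finset.mem_filter]
        exact ⟨⟨hq1, hl.1⟩, ⟨hq2, hl.2⟩⟩
    refine (Finset.card_le_card hsub).trans (Finset.card_biUnion_le.trans ?_)
    apply le_of_eq
    apply Finset.sum_congr rfl
    intro l _
    rw [Finset.card_product]
    rfl
  have h2 : 4 * s * m * (badPairs p D θ V s m).card ≤ D.card * (m * D.card) := by
    calc 4 * s * m * (badPairs p D θ V s m).card
        ≤ 4 * s * m * ∑ l ∈ (range V).filter (fun l => l ∉ pop p D θ V s m),
        irrCount p D θ V l * irrCount p D θ V l := Nat.mul_le_mul_left _ h1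
      _ = ∑ l ∈ (range V).filter (fun l => l ∉ pop p D θ V s m),
        (4 * s * m * irrCount p D θ V l) * irrCount p D θ V l := by
          rw [Finset.mul_sum]
          apply Finset.sum_congr rfl
          intro l _
          ring
      _ ≤ ∑ l ∈ (range V).filter (fun l => l ∉ pop p D θ V s m),
        D.card * irrCount p D θ V l := by
          apply Finset.sum_le_sum
          intro l hl
          rw [Finset.mem_filter] at hl
          apply Nat.mul_le_mul_right
          have h3 := hl.2
          unfold pop at h3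
          rw [Finset.mem_filter, not_and] at h3
          exact Nat.le_of_not_lt (h3 hl.1)
      _ = D.card * ∑ l ∈ (range V).filter (fun l => l ∉ pop p D θ V s m),
        irrCount p D θ V l := by rw [Finset.mul_sum]
      _ ≤ D.card * ∑ l ∈ range V, irrCount p D θ V l := by
          apply Nat.mul_le_mul_left
          apply Finset.sum_le_sum_of_subset
          exact Finset.filter_subset _ _
      _ ≤ D.card * (m * D.card) := Nat.mul_le_mul_left _ (sum_irrCount p D θ V hm)
  have h3 : m * (4 * s * (badPairs p D θ V s m).card) ≤ m * (D.card * D.card) := by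
    calc m * (4 * s * (badPairs p D θ V s m).card)
        = 4 * s * m * (badPairs p D θ V s m).card := by ring
      _ ≤ D.card * (m * D.card) := h2
      _ = _ := by ring
  exact Nat.le_of_mul_le_mul_left h3 hm1

end Levels

/-- Counting elements whose valuation lies in a prescribed small set depending on the class. -/
theorem spread_count {D : Finset ℤ} {f : ℤ → ℕ} {c : ℤ → ℤ} {K : ℕ}
    (H : ∀ i : ℤ → ℕ, K * (D.filter (fun x => f x = i (c x))).card ≤ D.card) (e : ℕ) :
    ∀ E : ℤ → Finset ℕ, (∀ b, (E b).card ≤ e) →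
      K * (D.filter (fun x => f x ∈ E (c x))).card ≤ e * D.card := by
  classical
  induction e with
  | zero =>
    intro E hE
    have : D.filter (fun x => f x ∈ E (c x)) = ∅ := by
      apply Finset.filter_eq_empty_iff.2
      intro x _
      have := hE (c x)
      have h0 : E (c x) = ∅ := Finset.card_eq_zero.1 (by omega)
      rw [h0]; simp
    rw [this]; simp
  | succ e ih =>
    intro E hE
    let i : ℤ → ℕ := fun b => if h : (E b).Nonempty then (E b).min' h else 0
    have h1 := H i
    have h2 := ih (fun b => (E b).erase (i b)) (by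
      intro b
      by_cases h : (E b).Nonempty
      · have hi : i b ∈ E b := by
          simp only [i, dif_pos h]
          exact Finset.min'_mem _ h
        rw [Finset.card_erase_of_mem hi]
        have := hE b
        omega
      · have h0 : E b = ∅ := Finset.not_nonempty_iff_eq_empty.1 h
        rw [h0]; simp)
    have hsub : D.filter (fun x => f x ∈ E (c x)) ⊆
        D.filter (fun x => f x = i (c x)) ∪ D.filter (fun x => f x ∈ (E (c x)).erase (i (c x))) := by
      intro x hx
      rw [Finset.mem_filter] at hx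
      rw [Finset.mem_union, Finset.mem_filter, Finset.mem_filter]
      by_cases h : f x = i (c x)
      · exact Or.inl ⟨hx.1, h⟩
      · exact Or.inr ⟨hx.1, Finset.mem_erase.2 ⟨h, hx.2⟩⟩
    calc K * (D.filter (fun x => f x ∈ E (c x))).card
        ≤ K * ((D.filter (fun x => f x = i (c x))).card +
          (D.filter (fun x => f x ∈ (E (c x)).erase (i (c x)))).card) :=
          Nat.mul_le_mul_left _ ((Finset.card_le_card hsub).trans (Finset.card_union_le _ _))
      _ = K * (D.filter (fun x => f x = i (c x))).card +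
          K * (D.filter (fun x => f x ∈ (E (c x)).erase (i (c x)))).card := by ring
      _ ≤ D.card + e * D.card := Nat.add_le_add h1 h2
      _ = (e + 1) * D.card := by ring

/-- Two elements of a set that separate at a level which is not popular, when both pairs are
good: exactly one of the two is irregular at that level, and the level is light for the first
element or for its partner. -/
theorem separate {p : ℕ} [Fact p.Prime] {D : Finset ℤ} {θ : ℝ} (hθ : θ ≤ 1 / 2)
    {V : ℕ} {L : Finset ℕ} {z x x' : ℤ} (hxx : x ≠ x') (hx : x ∈ D) (hx' : x' ∈ D)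
    (hlev : lev p x x' < V)
    (hg : drops p D (1 - θ) V x ∩ drops p D (1 - θ) V (z - x) ⊆ L)
    (hg' : drops p D (1 - θ) V x' ∩ drops p D (1 - θ) V (z - x') ⊆ L)
    (hy : z - x ∈ D) (hy' : z - x' ∈ D) (hL : lev p x x' ∉ L) :
    (lev p x x' ∈ drops p D (1 - θ) V x ↔ lev p x x' ∉ drops p D (1 - θ) V x') ∧
      lev p x x' ∈ drops p D θ V x ∪ drops p D θ V (z - x) := by
  set v := lev p x x' with hv
  have hyy : z - x ≠ z - x' := by
    intro h; apply hxx; linarith
  have d1 : (p : ℤ) ^ v ∣ x - x' := pow_lev_dvd x x'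
  have d2 : ¬ (p : ℤ) ^ (v + 1) ∣ x - x' := not_pow_succ_lev_dvd hxx
  have e : (z - x) - (z - x') = -(x - x') := by ring
  have d3 : (p : ℤ) ^ v ∣ (z - x) - (z - x') := by rw [e, dvd_neg]; exact d1
  have d4 : ¬ (p : ℤ) ^ (v + 1) ∣ (z - x) - (z - x') := by rw [e, dvd_neg]; exact d2
  have s1 := cnt_add_le p D d1 d2
  have s2 := cnt_add_le p D d3 d4
  have c1 := cnt_congr p D d1
  have c2 := cnt_congr p D d3
  have q1 : ((cnt p D x (v + 1) : ℝ)) + cnt p D x' (v + 1) ≤ cnt p D x v := by exact_mod_cast s1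
  have q2 : ((cnt p D (z - x) (v + 1) : ℝ)) + cnt p D (z - x') (v + 1) ≤ cnt p D (z - x) v := by
    exact_mod_cast s2
  have c1' : (cnt p D x v : ℝ) = cnt p D x' v := by exact_mod_cast c1
  have c2' : (cnt p D (z - x) v : ℝ) = cnt p D (z - x') v := by exact_mod_cast c2
  have pos1 : (1 : ℝ) ≤ cnt p D x v := by exact_mod_cast one_le_cnt p hx v
  have pos2 : (1 : ℝ) ≤ cnt p D (z - x) v := by exact_mod_cast one_le_cnt p hy v
  have pos3 : (1 : ℝ) ≤ cnt p D x (v + 1) := by exact_mod_cast one_le_cnt p hx (v + 1)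
  have pos4 : (1 : ℝ) ≤ cnt p D x' (v + 1) := by exact_mod_cast one_le_cnt p hx' (v + 1)
  have pos5 : (1 : ℝ) ≤ cnt p D (z - x) (v + 1) := by exact_mod_cast one_le_cnt p hy (v + 1)
  have pos6 : (1 : ℝ) ≤ cnt p D (z - x') (v + 1) := by exact_mod_cast one_le_cnt p hy' (v + 1)
  have m1 : v ∈ drops p D (1 - θ) V x ↔ (cnt p D x (v + 1) : ℝ) ≤ (1 - θ) * cnt p D x v := by
    rw [mem_drops]; exact ⟨fun h => h.2, fun h => ⟨hlev, h⟩⟩
  have m2 : v ∈ drops p D (1 - θ) V x' ↔ (cnt p D x' (v + 1) : ℝ) ≤ (1 - θ) * cnt p D x' v := by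
    rw [mem_drops]; exact ⟨fun h => h.2, fun h => ⟨hlev, h⟩⟩
  have m3 : v ∈ drops p D (1 - θ) V (z - x) ↔
      (cnt p D (z - x) (v + 1) : ℝ) ≤ (1 - θ) * cnt p D (z - x) v := by
    rw [mem_drops]; exact ⟨fun h => h.2, fun h => ⟨hlev, h⟩⟩
  have m4 : v ∈ drops p D (1 - θ) V (z - x') ↔
      (cnt p D (z - x') (v + 1) : ℝ) ≤ (1 - θ) * cnt p D (z - x') v := by
    rw [mem_drops]; exact ⟨fun h => h.2, fun h => ⟨hlev, h⟩⟩
  have g1 : ¬ (v ∈ drops p D (1 - θ) V x ∧ v ∈ drops p D (1 - θ) V (z - x)) :=
    fun h => hL (hg (Finset.mem_inter.2 h))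
  have g2 : ¬ (v ∈ drops p D (1 - θ) V x' ∧ v ∈ drops p D (1 - θ) V (z - x')) :=
    fun h => hL (hg' (Finset.mem_inter.2 h))
  rw [m1, m3] at g1
  rw [m2, m4] at g2
  rw [m1, m2]
  rw [← c1'] at g2 ⊢
  rw [← c2'] at g2
  have l1 : (cnt p D x (v + 1) : ℝ) ≤ θ * cnt p D x v → v ∈ drops p D θ V x :=
    fun h => mem_drops.2 ⟨hlev, h⟩
  have l2 : (cnt p D (z - x) (v + 1) : ℝ) ≤ θ * cnt p D (z - x) v →
      v ∈ drops p D θ V (z - x) := fun h => mem_drops.2 ⟨hlev, h⟩
  rw [Finset.mem_union]
  by_cases h1 : (cnt p D x (v + 1) : ℝ) ≤ (1 - θ) * cnt p D x v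
  · have h3 : ¬ (cnt p D (z - x) (v + 1) : ℝ) ≤ (1 - θ) * cnt p D (z - x) v := fun h => g1 ⟨h1, h⟩
    have h4 : (cnt p D (z - x') (v + 1) : ℝ) ≤ (1 - θ) * cnt p D (z - x) v := by nlinarith
    have h2 : ¬ (cnt p D x' (v + 1) : ℝ) ≤ (1 - θ) * cnt p D x v := fun h => g2 ⟨h, h4⟩
    refine ⟨⟨fun _ => h2, fun _ => h1⟩, Or.inl (l1 ?_)⟩
    nlinarith
  · have h2 : (cnt p D x' (v + 1) : ℝ) ≤ (1 - θ) * cnt p D x v := by nlinarith
    have h4 : ¬ (cnt p D (z - x') (v + 1) : ℝ) ≤ (1 - θ) * cnt p D (z - x) v :=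
      fun h => g2 ⟨h2, h⟩
    refine ⟨⟨fun h => absurd h h1, fun h => absurd h2 h⟩, Or.inr (l2 ?_)⟩
    nlinarith

end Pool.Agent.Helper18.Additive
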