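import Mathlib
import Pool.Agent.Helper18.Additive

set_option autoImplicit false

namespace Pool.Agent.Helper18.Additive

open Finset Pool.Agent.Helper18.PTree
open scoped Pointwise

theorem lev_eq_of_lt {p : ℕ} [Fact p.Prime] {x y : ℤ} (hx : x ≠ 0)
    (h : padicValInt p x < padicValInt p y) : lev p x y = padicValInt p x := by
  have hy : y ≠ 0 := by
    rintro rfl
    simp at h
  have hxy : x ≠ y := by
    rintro rfl
    exact lt_irrefl _ h
  apply lev_eq_of_not_dvd hxy
  · apply dvd_sub (padicValInt_dvd x)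
    rw [padicValInt_dvd_iff]
    exact Or.inr h.le
  · intro hd
    have h1 : (p : ℤ) ^ (padicValInt p x + 1) ∣ y := by
      rw [padicValInt_dvd_iff]
      exact Or.inr h
    have h2 : (p : ℤ) ^ (padicValInt p x + 1) ∣ x := by
      have e : x = (x - y) + y := by ring
      rw [e]
      have : padicValInt p (x - y + y) = padicValInt p x := by rw [← e]
      rw [this]
      exact dvd_add hd h1
    rw [padicValInt_dvd_iff] at h2
    rcases h2 with h2 | h2
    · exact hx h2
    · omega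

theorem val_eq_of_lev {p : ℕ} [Fact p.Prime] {x y : ℤ} (hx : x ≠ 0) (hy : y ≠ 0)
    {L : Finset ℕ} (h1 : padicValInt p x ∉ L) (h2 : padicValInt p y ∉ L)
    (h3 : lev p x y ∈ L) : padicValInt p x = padicValInt p y := by
  rcases lt_trichotomy (padicValInt p x) (padicValInt p y) with h | h | h
  · rw [lev_eq_of_lt hx h] at h3
    exact absurd h3 h1
  · exact h
  · rw [lev_comm, lev_eq_of_lt hy h] at h3
    exact absurd h3 h2

/-- Forbidden valuations for the class `b`. -/
noncomputable def forb (p : ℕ) (B : Finset ℤ) (θ : ℝ) (V : ℕ) (L : Finset ℕ) (b : ℤ) :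
    Finset ℕ :=
  if b ∈ B then
    (L ×ˢ drops p B (1 - θ) V b).image (fun q => q.1 + padicValInt p b - q.2)
  else ∅

theorem card_forb_le {p : ℕ} {B : Finset ℤ} {θ : ℝ} {V : ℕ} {L : Finset ℕ} {m l : ℕ}
    (hm : ∀ b ∈ B, (drops p B (1 - θ) V b).card ≤ m) (hl : L.card ≤ l) (b : ℤ) :
    (forb p B θ V L b).card ≤ l * m := by
  unfold forb
  split_ifs with h
  · refine Finset.card_image_le.trans ?_
    rw [Finset.card_product]
    exact Nat.mul_le_mul hl (hm b h)
  · simp

/-- Key step: two elements separating only at popular levels for all primes of `Q` and having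
no forbidden valuation are equal. -/
theorem key {Q : Finset ℕ} (hQ : ∀ p ∈ Q, p.Prime) {p0 : ℕ} (hp0 : p0 ∈ Q) {D : Finset ℤ}
    {c : ℤ → ℤ} {θ : ℝ} (hθ : θ ≤ 1 / 2) {V : ℕ} {L : ℕ → Finset ℕ}
    (hD0 : ∀ x ∈ D, x ≠ 0) (hc0 : ∀ x ∈ D, c x ≠ 0)
    (hVc : ∀ x ∈ D, ∀ y ∈ D, c x ≠ c y → lev p0 (c x) (c y) < V)
    (hR2 : ∀ x ∈ D, ∀ y ∈ D, (∀ p ∈ Q, padicValInt p x = padicValInt p y) →
      x * c y = y * c x)
    {x y : ℤ} (hx : x ∈ D) (hy : y ∈ D)
    (hx1 : ∀ p ∈ Q, padicValInt p x ∉ L p) (hy1 : ∀ p ∈ Q, padicValInt p y ∉ L p)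
    (hx2 : padicValInt p0 x ∉ forb p0 (D.image c) θ V (L p0) (c x))
    (hy2 : padicValInt p0 y ∉ forb p0 (D.image c) θ V (L p0) (c y))
    (hlev : x ≠ y → ∀ p ∈ Q, lev p x y ∈ L p) : x = y := by
  by_contra hxy
  have hval : ∀ p ∈ Q, padicValInt p x = padicValInt p y := by
    intro p hp
    have : Fact p.Prime := ⟨hQ p hp⟩
    exact val_eq_of_lev (hD0 x hx) (hD0 y hy) (hx1 p hp) (hy1 p hp) (hlev hxy p hp)
  have hR := hR2 x hx y hy hval
  have hcxy : c x ≠ c y := by
    intro h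
    rw [h] at hR
    exact hxy (mul_right_cancel₀ (hc0 y hy) hR)
  have : Fact p0.Prime := ⟨hQ p0 hp0⟩
  have hbx : c x ∈ D.image c := Finset.mem_image_of_mem _ hx
  have hby : c y ∈ D.image c := Finset.mem_image_of_mem _ hy
  set l := lev p0 (c x) (c y) with hl
  have hlV : l < V := hVc x hx y hy hcxy
  have v1 : padicValInt p0 x + l = padicValInt p0 (c x) + lev p0 x y := by
    have e : x * (c x - c y) = c x * (x - y) := by linarith
    have := congrArg (padicValInt p0) e
    rw [padicValInt.mul (hD0 x hx) (sub_ne_zero.2 hcxy),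
      padicValInt.mul (hc0 x hx) (sub_ne_zero.2 hxy)] at this
    exact this
  have v2 : padicValInt p0 y + l = padicValInt p0 (c y) + lev p0 x y := by
    have e : y * (c x - c y) = c y * (x - y) := by linarith
    have := congrArg (padicValInt p0) e
    rw [padicValInt.mul (hD0 y hy) (sub_ne_zero.2 hcxy),
      padicValInt.mul (hc0 y hy) (sub_ne_zero.2 hxy)] at this
    exact this
  have hL0 := hlev hxy p0 hp0
  -- one of the two classes is irregular at level l
  have d1 : (p0 : ℤ) ^ l ∣ c x - c y := pow_lev_dvd _ _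
  have d2 : ¬ (p0 : ℤ) ^ (l + 1) ∣ c x - c y := not_pow_succ_lev_dvd hcxy
  have s1 := cnt_add_le p0 (D.image c) d1 d2
  have c1 := cnt_congr p0 (D.image c) d1
  have q1 : ((cnt p0 (D.image c) (c x) (l + 1) : ℝ)) + cnt p0 (D.image c) (c y) (l + 1)
      ≤ cnt p0 (D.image c) (c x) l := by exact_mod_cast s1
  have c1' : (cnt p0 (D.image c) (c x) l : ℝ) = cnt p0 (D.image c) (c y) l := by
    exact_mod_cast c1
  have pos : (1 : ℝ) ≤ cnt p0 (D.image c) (c x) l := by exact_mod_cast one_le_cnt p0 hbx l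
  by_cases h : (cnt p0 (D.image c) (c x) (l + 1) : ℝ) ≤ (1 - θ) * cnt p0 (D.image c) (c x) l
  · have hm : l ∈ drops p0 (D.image c) (1 - θ) V (c x) := mem_drops.2 ⟨hlV, h⟩
    apply hx2
    unfold forb
    rw [if_pos hbx, Finset.mem_image]
    refine ⟨(lev p0 x y, l), ?_, ?_⟩
    · rw [Finset.mem_product]; exact ⟨hL0, hm⟩
    · simp only
      omega
  · have h' : (cnt p0 (D.image c) (c y) (l + 1) : ℝ)
        ≤ (1 - θ) * cnt p0 (D.image c) (c y) l := by
      rw [← c1']
      nlinarith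
    have hm : l ∈ drops p0 (D.image c) (1 - θ) V (c y) := mem_drops.2 ⟨hlV, h'⟩
    apply hy2
    unfold forb
    rw [if_pos hby, Finset.mem_image]
    refine ⟨(lev p0 x y, l), ?_, ?_⟩
    · rw [Finset.mem_product]; exact ⟨hL0, hm⟩
    · simp only
      omega

/-- Additive theorem for a spread set. -/
theorem additive (Q : Finset ℕ) (hQ : ∀ p ∈ Q, p.Prime) {p0 : ℕ} (hp0 : p0 ∈ Q)
    (D : Finset ℤ) (c : ℤ → ℤ) {θ : ℝ} (hθ : θ ≤ 1 / 2) {V m w K : ℕ}
    (hm1 : 1 ≤ m) (hD0 : ∀ x ∈ D, x ≠ 0) (hc0 : ∀ x ∈ D, c x ≠ 0)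
    (hV : ∀ p ∈ Q, ∀ x ∈ D, ∀ y ∈ D, x ≠ y → lev p x y < V)
    (hVc : ∀ x ∈ D, ∀ y ∈ D, c x ≠ c y → lev p0 (c x) (c y) < V)
    (hm : ∀ p ∈ Q, ∀ x ∈ D, (drops p D (1 - θ) V x).card ≤ m)
    (hmc : ∀ b ∈ D.image c, (drops p0 (D.image c) (1 - θ) V b).card ≤ m)
    (hw : ∀ p ∈ Q, ∀ x ∈ D, (drops p D θ V x).card ≤ w)
    (hR2 : ∀ x ∈ D, ∀ y ∈ D, (∀ p ∈ Q, padicValInt p x = padicValInt p y) →
      x * c y = y * c x)
    (H : ∀ p ∈ Q, ∀ i : ℤ → ℕ,
      K * (D.filter (fun x => padicValInt p x = i (c x))).card ≤ D.card)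
    (hK : 64 * Q.card ^ 2 * m ^ 3 ≤ K) :
    D.card ^ 2 ≤ 2 * (2 ^ (2 * w)) ^ Q.card * (D + D).card := by
  classical
  set s := Q.card with hs
  have hs1 : 1 ≤ s := Finset.card_pos.2 ⟨p0, hp0⟩
  let L : ℕ → Finset ℕ := fun p => pop p D θ V s m
  have hLcard : ∀ p ∈ Q, (L p).card ≤ 4 * s * m * m := fun p hp =>
    card_pop_le p D θ V (hm p hp)
  -- atypical elements
  let AT1 : ℕ → Finset ℤ := fun p => D.filter (fun x => padicValInt p x ∈ L p)
  let AT2 : Finset ℤ := D.filter (fun x => padicValInt p0 x ∈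
    forb p0 (D.image c) θ V (L p0) (c x))
  let AT : Finset ℤ := Q.biUnion AT1 ∪ AT2
  have hAT1 : ∀ p ∈ Q, K * (AT1 p).card ≤ (4 * s * m * m) * D.card := by
    intro p hp
    exact spread_count (H p hp) _ (fun _ => L p) (fun _ => hLcard p hp)
  have hAT2 : K * AT2.card ≤ (4 * s * m * m * m) * D.card :=
    spread_count (H p0 hp0) _ (forb p0 (D.image c) θ V (L p0))
      (fun b => card_forb_le hmc (hLcard p0 hp0) b)
  have hAT : 8 * AT.card ≤ D.card := by
    have h1 : AT.card ≤ ∑ p ∈ Q, (AT1 p).card + AT2.card :=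
      (Finset.card_union_le _ _).trans (Nat.add_le_add_right Finset.card_biUnion_le _)
    have h2 : K * AT.card ≤ (4 * s * s * m * m + 4 * s * m * m * m) * D.card := by
      calc K * AT.card ≤ K * (∑ p ∈ Q, (AT1 p).card + AT2.card) := Nat.mul_le_mul_left _ h1
        _ = ∑ p ∈ Q, K * (AT1 p).card + K * AT2.card := by rw [mul_add, Finset.mul_sum]
        _ ≤ ∑ p ∈ Q, (4 * s * m * m) * D.card + (4 * s * m * m * m) * D.card :=
            Nat.add_le_add (Finset.sum_le_sum hAT1) hAT2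
        _ = s * ((4 * s * m * m) * D.card) + (4 * s * m * m * m) * D.card := by
            rw [Finset.sum_const, smul_eq_mul]
        _ = _ := by ring
    have h3 : (8 * s ^ 2 * m ^ 3) * (8 * AT.card) ≤ (8 * s ^ 2 * m ^ 3) * D.card := by
      calc (8 * s ^ 2 * m ^ 3) * (8 * AT.card) = (64 * s ^ 2 * m ^ 3) * AT.card := by ring
        _ ≤ K * AT.card := Nat.mul_le_mul_right _ hK
        _ ≤ (4 * s * s * m * m + 4 * s * m * m * m) * D.card := h2
        _ ≤ (8 * s ^ 2 * m ^ 3) * D.card := by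
            apply Nat.mul_le_mul_right
            have e1 : s * s * m * m ≤ s ^ 2 * m ^ 3 := by
              calc s * s * m * m = s ^ 2 * (m ^ 2 * 1) := by ring
                _ ≤ s ^ 2 * (m ^ 2 * m) := by gcongr
                _ = s ^ 2 * m ^ 3 := by ring
            have e2 : s * m * m * m ≤ s ^ 2 * m ^ 3 := by
              calc s * m * m * m = (s * 1) * m ^ 3 := by ring
                _ ≤ (s * s) * m ^ 3 := by gcongr
                _ = s ^ 2 * m ^ 3 := by ring
            calc 4 * s * s * m * m + 4 * s * m * m * m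
                = 4 * (s * s * m * m) + 4 * (s * m * m * m) := by ring
              _ ≤ 4 * (s ^ 2 * m ^ 3) + 4 * (s ^ 2 * m ^ 3) := by gcongr
              _ = _ := by ring
    exact Nat.le_of_mul_le_mul_left h3 (by positivity)
  -- bad pairs
  have hBP : ∀ p ∈ Q, 4 * s * (badPairs p D θ V s m).card ≤ D.card * D.card :=
    fun p hp => card_badPairs_le p D θ V hm1 (hm p hp)
  have hBPs : 4 * (∑ p ∈ Q, (badPairs p D θ V s m).card) ≤ D.card * D.card := by
    have : s * (4 * ∑ p ∈ Q, (badPairs p D θ V s m).card) ≤ s * (D.card * D.card) := by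
      calc s * (4 * ∑ p ∈ Q, (badPairs p D θ V s m).card)
          = ∑ p ∈ Q, 4 * s * (badPairs p D θ V s m).card := by
            rw [← Finset.mul_sum]; ring
        _ ≤ ∑ p ∈ Q, D.card * D.card := Finset.sum_le_sum hBP
        _ = s * (D.card * D.card) := by rw [Finset.sum_const, smul_eq_mul]
    exact Nat.le_of_mul_le_mul_left this hs1
  -- good pairs
  let G : Finset (ℤ × ℤ) := (D ×ˢ D).filter (fun q => q.1 ∉ AT ∧
    ∀ p ∈ Q, drops p D (1 - θ) V q.1 ∩ drops p D (1 - θ) V q.2 ⊆ L p)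
  have hcover : D ×ˢ D ⊆ G ∪ (AT ×ˢ D ∪ Q.biUnion (fun p => badPairs p D θ V s m)) := by
    intro q hq
    rw [Finset.mem_union, Finset.mem_union]
    by_cases h1 : q.1 ∈ AT
    · right; left
      rw [Finset.mem_product] at hq ⊢
      exact ⟨h1, hq.2⟩
    · by_cases h2 : ∀ p ∈ Q, drops p D (1 - θ) V q.1 ∩ drops p D (1 - θ) V q.2 ⊆ L p
      · left
        rw [Finset.mem_filter]
        exact ⟨hq, h1, h2⟩
      · right; right
        push Not at h2
        obtain ⟨p, hp, h3⟩ := h2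
        rw [Finset.mem_biUnion]
        refine ⟨p, hp, ?_⟩
        unfold badPairs
        rw [Finset.mem_filter]
        exact ⟨hq, h3⟩
  have hG : D.card * D.card ≤ 2 * G.card := by
    have h1 := Finset.card_le_card hcover
    have h2 : (G ∪ (AT ×ˢ D ∪ Q.biUnion (fun p => badPairs p D θ V s m))).card ≤
        G.card + (AT.card * D.card + ∑ p ∈ Q, (badPairs p D θ V s m).card) := by
      refine (Finset.card_union_le _ _).trans (Nat.add_le_add_left ?_ _)
      refine (Finset.card_union_le _ _).trans ?_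
      rw [Finset.card_product]
      exact Nat.add_le_add_left Finset.card_biUnion_le _
    rw [Finset.card_product] at h1
    have h3 : 8 * (AT.card * D.card) ≤ D.card * D.card := by
      calc 8 * (AT.card * D.card) = (8 * AT.card) * D.card := by ring
        _ ≤ D.card * D.card := Nat.mul_le_mul_right _ hAT
    omega
  -- representations
  have hrep : ∀ z : ℤ, (G.filter (fun q => q.1 + q.2 = z)).card ≤ (2 ^ (2 * w)) ^ s := by
    intro z
    let R : Finset ℤ := D.filter (fun x => z - x ∈ D ∧ x ∉ AT ∧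
      ∀ p ∈ Q, drops p D (1 - θ) V x ∩ drops p D (1 - θ) V (z - x) ⊆ L p)
    have hinj : (G.filter (fun q => q.1 + q.2 = z)).card ≤ R.card := by
      apply Finset.card_le_card_of_injOn (fun q => q.1)
      · intro q hq
        simp only [Finset.mem_coe, Finset.mem_filter, G, Finset.mem_product] at hq
        obtain ⟨⟨⟨hq1, hq2⟩, hq3, hq4⟩, hq5⟩ := hq
        have e : z - q.1 = q.2 := by rw [← hq5]; ring
        simp only [Finset.mem_coe, R, Finset.mem_filter]
        rw [e]
        exact ⟨hq1, hq2, hq3, hq4⟩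
      · intro q hq q' hq' h
        simp only [Finset.mem_coe, Finset.mem_filter] at hq hq'
        simp only at h
        have e : q.2 = q'.2 := by
          have h1 := hq.2
          have h2 := hq'.2
          rw [h] at h1
          linarith
        exact Prod.ext h e
    have hRmem : ∀ x ∈ R, x ∈ D ∧ z - x ∈ D ∧ x ∉ AT ∧
        ∀ p ∈ Q, drops p D (1 - θ) V x ∩ drops p D (1 - θ) V (z - x) ⊆ L p := by
      intro x hx
      simpa only [R, Finset.mem_filter] using hx
    obtain ⟨R', hR', h3, h4⟩ := select_multi Q hQ L (2 * w)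
      (fun p x => drops p D θ V x ∪ drops p D θ V (z - x)) R
      (by
        intro p hp x hx
        obtain ⟨hx1, hx2, -, -⟩ := hRmem x hx
        refine (Finset.card_union_le _ _).trans ?_
        have := hw p hp x hx1
        have := hw p hp (z - x) hx2
        omega)
      (by
        intro p hp x hx y hy hxy hL
        obtain ⟨hx1, hx2, -, hx4⟩ := hRmem x hx
        obtain ⟨hy1, hy2, -, hy4⟩ := hRmem y hy
        have : Fact p.Prime := ⟨hQ p hp⟩
        exact (separate hθ hxy hx1 hy1 (hV p hp x hx1 y hy1 hxy) (hx4 p hp) (hy4 p hp)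
          hx2 hy2 hL).2)
      (by
        intro p hp x hx y hy y' hy' hxy hyy hxy' e1 e2
        by_contra hL
        obtain ⟨hx1, hx2, -, hx4⟩ := hRmem x hx
        obtain ⟨hy1, hy2, -, hy4⟩ := hRmem y hy
        obtain ⟨hz1, hz2, -, hz4⟩ := hRmem y' hy'
        have : Fact p.Prime := ⟨hQ p hp⟩
        have t1 := (separate hθ hxy hx1 hy1 (hV p hp x hx1 y hy1 hxy) (hx4 p hp) (hy4 p hp)
          hx2 hy2 hL).1
        have t2 := (separate hθ hxy' hx1 hz1 (hV p hp x hx1 y' hz1 hxy') (hx4 p hp) (hz4 p hp)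
          hx2 hz2 (by rw [← e1]; exact hL)).1
        have t3 := (separate hθ hyy hy1 hz1 (hV p hp y hy1 y' hz1 hyy) (hy4 p hp) (hz4 p hp)
          hy2 hz2 (by rw [e2, ← e1]; exact hL)).1
        rw [← e1] at t2
        rw [e2, ← e1] at t3
        tauto)
    have hR'1 : R'.card ≤ 1 := by
      rw [Finset.card_le_one]
      intro x hx y hy
      obtain ⟨hx1, -, hx3, -⟩ := hRmem x (hR' hx)
      obtain ⟨hy1, -, hy3, -⟩ := hRmem y (hR' hy)
      have hxA : (∀ p ∈ Q, padicValInt p x ∉ L p) ∧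
          padicValInt p0 x ∉ forb p0 (D.image c) θ V (L p0) (c x) := by
        simp only [AT, AT1, AT2, Finset.mem_union, Finset.mem_biUnion, Finset.mem_filter,
          not_or, not_exists, not_and] at hx3
        exact ⟨fun p hp => hx3.1 p hp hx1, hx3.2 hx1⟩
      have hyA : (∀ p ∈ Q, padicValInt p y ∉ L p) ∧
          padicValInt p0 y ∉ forb p0 (D.image c) θ V (L p0) (c y) := by
        simp only [AT, AT1, AT2, Finset.mem_union, Finset.mem_biUnion, Finset.mem_filter,
          not_or, not_exists, not_and] at hy3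
        exact ⟨fun p hp => hy3.1 p hp hy1, hy3.2 hy1⟩
      exact key hQ hp0 hθ hD0 hc0 hVc hR2 hx1 hy1 hxA.1 hyA.1 hxA.2 hyA.2
        (fun hxy p hp => h3 p hp x hx y hy hxy)
    calc (G.filter (fun q => q.1 + q.2 = z)).card ≤ R.card := hinj
      _ ≤ (2 ^ (2 * w)) ^ s * R'.card := h4
      _ ≤ (2 ^ (2 * w)) ^ s * 1 := Nat.mul_le_mul_left _ hR'1
      _ = _ := mul_one _
  have hGsum : G.card ≤ (2 ^ (2 * w)) ^ s * (D + D).card := by
    have hmaps : ∀ q ∈ G, q.1 + q.2 ∈ D + D := by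
      intro q hq
      simp only [G, Finset.mem_filter, Finset.mem_product] at hq
      exact Finset.add_mem_add hq.1.1 hq.1.2
    rw [Finset.card_eq_sum_card_fiberwise hmaps]
    calc ∑ z ∈ D + D, (G.filter (fun q => q.1 + q.2 = z)).card
        ≤ ∑ z ∈ D + D, (2 ^ (2 * w)) ^ s := Finset.sum_le_sum (fun z _ => hrep z)
      _ = _ := by rw [Finset.sum_const, smul_eq_mul, mul_comm]
  calc D.card ^ 2 = D.card * D.card := sq _
    _ ≤ 2 * G.card := hG
    _ ≤ 2 * ((2 ^ (2 * w)) ^ s * (D + D).card) := Nat.mul_le_mul_left _ hGsum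
    _ = _ := by ring

end Pool.Agent.Helper18.Additive
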