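import Mathlib

set_option autoImplicit false

namespace Pool.Agent.Helper18.BraidFrame

variable {L : Type*}

/-- `g` arises from `f` by replacing the factor `s t s` at positions `k, k+1, k+2` by `t s t`,
where `s` and `t` are related by `R`. -/
def StepAt (R : L → L → Prop) (k : ℤ) (f g : ℤ → L) : Prop :=
  R (f k) (f (k + 1)) ∧ f (k + 2) = f k ∧ g k = f (k + 1) ∧ g (k + 1) = f k ∧
    g (k + 2) = f (k + 1) ∧ ∀ j, j ≠ k → j ≠ k + 1 → j ≠ k + 2 → g j = f j

/-- One braid step. -/
def Step (R : L → L → Prop) (f g : ℤ → L) : Prop := ∃ k, StepAt R k f g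

theorem StepAt.symm {R : L → L → Prop} (hR : ∀ a b, R a b → R b a) {k : ℤ} {f g : ℤ → L}
    (h : StepAt R k f g) : StepAt R k g f := by
  obtain ⟨h1, h2, h3, h4, h5, h6⟩ := h
  refine ⟨?_, ?_, ?_, ?_, ?_, ?_⟩
  · rw [h3, h4]; exact hR _ _ h1
  · rw [h3, h5]
  · rw [h4]
  · rw [h3]
  · rw [h4, h2]
  · intro j a b c; exact (h6 j a b c).symm

/-- Combinatorial frame of a braid class. -/
structure Frame (R : L → L → Prop) where
  C : Finset ℤ
  e : ℤ → Bool → L
  σ : ℤ → Bool
  τ : ℤ → Bool
  w : ℤ → L
  nonneg : ∀ k ∈ C, 0 ≤ k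
  nonadj : ∀ k ∈ C, k + 1 ∉ C
  edge : ∀ k ∈ C, R (e k false) (e k true)
  shared : ∀ k ∈ C, k + 2 ∈ C → e k (σ k) = e (k + 2) (τ k)
  distinct : ∀ k ∈ C, k + 2 ∈ C → e k (!σ k) ≠ e (k + 2) (!τ k)

namespace Frame

variable {R : L → L → Prop} (F : Frame R)

/-- Valid choices of letters at the centres. -/
def Valid (X : ℤ → Bool) : Prop :=
  ∀ k ∈ F.C, k + 2 ∈ F.C → ¬ (X k = F.σ k ∧ X (k + 2) = F.τ k)

/-- The word attached to a choice. -/
def word (X : ℤ → Bool) (j : ℤ) : L :=
  if j - 1 ∈ F.C then F.e (j - 1) (X (j - 1))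
  else if j ∈ F.C then
    if j - 2 ∈ F.C ∧ X (j - 2) = F.σ (j - 2) then F.e (j - 2) (!X (j - 2)) else F.e j (!X j)
  else if j - 2 ∈ F.C then F.e (j - 2) (!X (j - 2))
  else F.w j

theorem nonadj' {k : ℤ} (hk : k ∈ F.C) : k - 1 ∉ F.C := by
  intro h
  have := F.nonadj _ h
  simp at this
  exact this hk

theorem word_center (X : ℤ → Bool) {k : ℤ} (hk : k ∈ F.C) :
    F.word X (k + 1) = F.e k (X k) := by
  unfold word
  simp [hk]

theorem word_right_end (X : ℤ → Bool) {k : ℤ} (hk : k ∈ F.C) (h2 : k + 2 ∉ F.C) :
    F.word X (k + 2) = F.e k (!X k) := by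
  have h1 : k + 2 - 1 ∉ F.C := by
    have := F.nonadj k hk
    have e : k + 2 - 1 = k + 1 := by ring
    rwa [e]
  unfold word
  simp [hk, h2, h1]

theorem word_right_mid (X : ℤ → Bool) {k : ℤ} (hk : k ∈ F.C) (h2 : k + 2 ∈ F.C) :
    F.word X (k + 2) = if X k = F.σ k then F.e k (!X k) else F.e (k + 2) (!X (k + 2)) := by
  have h1 : k + 2 - 1 ∉ F.C := by
    have := F.nonadj k hk
    have e : k + 2 - 1 = k + 1 := by ring
    rwa [e]
  unfold word
  simp [hk, h2, h1]

theorem word_left_end (X : ℤ → Bool) {k : ℤ} (hk : k ∈ F.C) (h2 : k - 2 ∉ F.C) :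
    F.word X k = F.e k (!X k) := by
  have h1 : k - 1 ∉ F.C := F.nonadj' hk
  unfold word
  simp [hk, h2, h1]

theorem word_left_mid (X : ℤ → Bool) {k : ℤ} (hk : k ∈ F.C) (h2 : k - 2 ∈ F.C) :
    F.word X k = if X (k - 2) = F.σ (k - 2) then F.e (k - 2) (!X (k - 2))
      else F.e k (!X k) := by
  have h1 : k - 1 ∉ F.C := F.nonadj' hk
  unfold word
  simp [hk, h2, h1]

theorem word_const (X : ℤ → Bool) {k : ℤ} (h0 : k ∉ F.C) (h1 : k - 1 ∉ F.C) (h2 : k - 2 ∉ F.C) :
    F.word X k = F.w k := by
  unfold word
  simp [h0, h2, h1]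

/-- Toggle the choice at `k`. -/
def toggle (X : ℤ → Bool) (k : ℤ) : ℤ → Bool := Function.update X k (!X k)

theorem toggle_same (X : ℤ → Bool) (k : ℤ) : toggle X k k = !X k := by
  simp [toggle]

theorem toggle_ne (X : ℤ → Bool) {k j : ℤ} (h : j ≠ k) : toggle X k j = X j := by
  simp [toggle, Function.update_of_ne h]

theorem toggle_toggle (X : ℤ → Bool) (k : ℤ) : toggle (toggle X k) k = X := by
  funext j
  by_cases h : j = k
  · subst h; simp [toggle]
  · rw [toggle_ne _ h, toggle_ne _ h]

/-- Ends of a site that can be toggled. -/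
theorem word_ends {X : ℤ → Bool} {k : ℤ} (hk : k ∈ F.C) (hX : F.Valid X)
    (hY : F.Valid (toggle X k)) :
    F.word X k = F.e k (!X k) ∧ F.word X (k + 2) = F.e k (!X k) := by
  constructor
  · by_cases h2 : k - 2 ∈ F.C
    · rw [F.word_left_mid X hk h2, if_neg]
      intro hs
      have hk' : k - 2 + 2 = k := by ring
      have a := hX (k - 2) h2 (by rw [hk']; exact hk)
      have b := hY (k - 2) h2 (by rw [hk']; exact hk)
      rw [hk'] at a b
      rw [toggle_same, toggle_ne X (by omega : k - 2 ≠ k)] at b
      revert a b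
      cases X k <;> cases F.τ (k - 2) <;> simp [hs]
    · exact F.word_left_end X hk h2
  · by_cases h2 : k + 2 ∈ F.C
    · rw [F.word_right_mid X hk h2]
      split_ifs with hs
      · rfl
      · have b := hY k hk h2
        rw [toggle_same, toggle_ne X (by omega : k + 2 ≠ k)] at b
        have hs' : (!X k) = F.σ k := by
          revert hs
          cases X k <;> cases F.σ k <;> simp
        have ht : X (k + 2) ≠ F.τ k := fun h => b ⟨hs', h⟩
        have ht' : (!X (k + 2)) = F.τ k := by
          revert ht
          cases X (k + 2) <;> cases F.τ k <;> simp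
        rw [ht', hs', F.shared k hk h2]
    · exact F.word_right_end X hk h2

/-- Letters away from the site do not change. -/
theorem word_toggle_of_ne (X : ℤ → Bool) {k j : ℤ} (h0 : j ≠ k) (h1 : j ≠ k + 1)
    (h2 : j ≠ k + 2) : F.word (toggle X k) j = F.word X j := by
  have a1 : j - 1 ≠ k := by omega
  have a2 : j - 2 ≠ k := by omega
  unfold word
  rw [toggle_ne X a1, toggle_ne X a2, toggle_ne X h0]

theorem stepAt_toggle (hR : ∀ a b, R a b → R b a) {X : ℤ → Bool} {k : ℤ} (hk : k ∈ F.C)
    (hX : F.Valid X) (hY : F.Valid (toggle X k)) :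
    StepAt R k (F.word X) (F.word (toggle X k)) := by
  obtain ⟨a1, a2⟩ := F.word_ends hk hX hY
  have hYY : F.Valid (toggle (toggle X k) k) := by rw [toggle_toggle]; exact hX
  obtain ⟨b1, b2⟩ := F.word_ends hk hY hYY
  have a3 := F.word_center X hk
  have b3 := F.word_center (toggle X k) hk
  rw [toggle_same] at b1 b2 b3
  rw [Bool.not_not] at b1 b2
  refine ⟨?_, ?_, ?_, ?_, ?_, ?_⟩
  · rw [a1, a3]
    have := F.edge k hk
    cases X k
    · exact hR _ _ this
    · exact this
  · rw [a1, a2]
  · rw [b1, a3]
  · rw [b3, a1]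
  · rw [b2, a3]
  · intro j h0 h1 h2
    exact F.word_toggle_of_ne X h0 h1 h2

theorem StepAt.unique {k : ℤ} {f g g' : ℤ → L} (h : StepAt R k f g) (h' : StepAt R k f g') :
    g = g' := by
  obtain ⟨-, -, h3, h4, h5, h6⟩ := h
  obtain ⟨-, -, h3', h4', h5', h6'⟩ := h'
  funext j
  by_cases a : j = k
  · subst a; rw [h3, h3']
  by_cases b : j = k + 1
  · subst b; rw [h4, h4']
  by_cases c : j = k + 2
  · subst c; rw [h5, h5']
  rw [h6 j a b c, h6' j a b c]

theorem bool_ne_not {a b : Bool} (h : a ≠ b) : (!a) = b := by
  cases a <;> cases b <;> simp at h ⊢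

/-- A site of a frame word located at a centre of the frame can be toggled. -/
theorem valid_toggle_of_site (hR : ∀ a b, R a b → R b a)
    (hT : ∀ a b c, R a b → R b c → R a c → False) {X : ℤ → Bool} {k : ℤ} (hk : k ∈ F.C)
    (hX : F.Valid X) (h1 : R (F.word X k) (F.word X (k + 1)))
    (h2 : F.word X (k + 2) = F.word X k) : F.Valid (toggle X k) := by
  have hirr : ∀ a, ¬ R a a := fun a h => hT a a a h h h
  have hedge : ∀ i ∈ F.C, ∀ b : Bool, R (F.e i b) (F.e i (!b)) := by
    intro i hi b
    cases b
    · exact F.edge i hi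
    · exact hR _ _ (F.edge i hi)
  -- left block
  have hleft : (k - 2 ∈ F.C ∧ X (k - 2) = F.σ (k - 2) ∧ (!X k) = F.τ (k - 2)) ∨
      (F.word X k = F.e k (!X k) ∧ ¬ (k - 2 ∈ F.C ∧ X (k - 2) = F.σ (k - 2))) := by
    by_cases hc : k - 2 ∈ F.C
    · by_cases hs : X (k - 2) = F.σ (k - 2)
      · left
        refine ⟨hc, hs, ?_⟩
        have hk' : k - 2 + 2 = k := by ring
        have a := hX (k - 2) hc (by rw [hk']; exact hk)
        rw [hk'] at a
        exact bool_ne_not (fun h => a ⟨hs, h⟩)
      · right
        exact ⟨by rw [F.word_left_mid X hk hc, if_neg hs], fun h => hs h.2⟩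
    · right
      exact ⟨F.word_left_end X hk hc, fun h => hc h.1⟩
  have hright : (k + 2 ∈ F.C ∧ (!X k) = F.σ k ∧ X (k + 2) = F.τ k) ∨
      (F.word X (k + 2) = F.e k (!X k) ∧ ¬ (k + 2 ∈ F.C ∧ (!X k) = F.σ k ∧ X (k + 2) = F.τ k)) := by
    by_cases hc : k + 2 ∈ F.C
    · by_cases hs : (!X k) = F.σ k ∧ X (k + 2) = F.τ k
      · left; exact ⟨hc, hs⟩
      · right
        refine ⟨?_, fun h => hs h.2⟩
        rw [F.word_right_mid X hk hc]
        split_ifs with h
        · rfl
        · have h' := bool_ne_not h
          have ht : X (k + 2) ≠ F.τ k := fun h => hs ⟨h', h⟩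
          rw [bool_ne_not ht, h', F.shared k hk hc]
    · right
      exact ⟨F.word_right_end X hk hc, fun h => hc h.1⟩
  have hcen := F.word_center X hk
  -- value when blocked on the left
  have vleft : ∀ (hc : k - 2 ∈ F.C) (hs : X (k - 2) = F.σ (k - 2))
      (ht : (!X k) = F.τ (k - 2)), R (F.word X k) (F.e k (!X k)) := by
    intro hc hs ht
    rw [F.word_left_mid X hk hc, if_pos hs, hs, ht]
    have hk' : k - 2 + 2 = k := by ring
    have := F.shared (k - 2) hc (by rw [hk']; exact hk)
    rw [hk'] at this
    rw [← this]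
    have := hedge (k - 2) hc (!F.σ (k - 2))
    rwa [Bool.not_not] at this
  have vright : ∀ (hc : k + 2 ∈ F.C) (hs : (!X k) = F.σ k)
      (ht : X (k + 2) = F.τ k), R (F.word X (k + 2)) (F.e k (!X k)) := by
    intro hc hs ht
    have hs' : X k ≠ F.σ k := by
      rw [← hs]; cases X k <;> simp
    rw [F.word_right_mid X hk hc, if_neg hs', hs, ht, F.shared k hk hc]
    have := hedge (k + 2) hc (!F.τ k)
    rwa [Bool.not_not] at this
  have hRk := hedge k hk (!X k)
  rw [Bool.not_not] at hRk
  rcases hleft with ⟨lc, ls, lt⟩ | ⟨lw, ln⟩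
  · rcases hright with ⟨rc, rs, rt⟩ | ⟨rw', rn⟩
    · exfalso
      have a := vleft lc ls lt
      rw [hcen] at h1
      exact hT _ _ _ a hRk h1
    · exfalso
      have a := vleft lc ls lt
      rw [← h2, rw'] at a
      exact hirr _ a
  · rcases hright with ⟨rc, rs, rt⟩ | ⟨rw', rn⟩
    · exfalso
      have a := vright rc rs rt
      rw [h2, lw] at a
      exact hirr _ a
    · -- not blocked
      intro i hi hi2
      by_cases e1 : i = k
      · subst e1
        rw [toggle_same, toggle_ne X (by omega : i + 2 ≠ i)]
        exact fun h => rn ⟨hi2, h⟩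
      · by_cases e2 : i + 2 = k
        · have e3 : i = k - 2 := by omega
          subst e3
          rw [toggle_ne X e1]
          exact fun h => ln ⟨hi, h.1⟩
        · rw [toggle_ne X e1, toggle_ne X e2]
          exact hX i hi hi2

/-- No site between two consecutive centres. -/
theorem no_site_between (hirr : ∀ a, ¬ R a a) (hR : ∀ a b, R a b → R b a)
    {X : ℤ → Bool} {k : ℤ} (hX : F.Valid X)
    (h1 : k - 1 ∈ F.C) (h2 : k + 1 ∈ F.C) : F.word X (k + 2) ≠ F.word X k := by
  intro h
  have hedge : ∀ i ∈ F.C, ∀ b : Bool, R (F.e i b) (F.e i (!b)) := by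
    intro i hi b
    cases b
    · exact F.edge i hi
    · exact hR _ _ (F.edge i hi)
  have c1 := F.word_center X h1
  have c2 := F.word_center X h2
  have e1 : k - 1 + 1 = k := by ring
  have e2 : k + 1 + 1 = k + 2 := by ring
  have e3 : k - 1 + 2 = k + 1 := by ring
  rw [e1] at c1
  rw [e2] at c2
  rw [c1, c2] at h
  have hs := F.shared (k - 1) h1 (by rw [e3]; exact h2)
  have hd := F.distinct (k - 1) h1 (by rw [e3]; exact h2)
  have hv := hX (k - 1) h1 (by rw [e3]; exact h2)
  rw [e3] at hs hd hv
  by_cases a : X (k - 1) = F.σ (k - 1)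
  · have b := bool_ne_not (fun b => hv ⟨a, b⟩)
    rw [a, hs] at h
    have := hedge (k + 1) h2 (X (k + 1))
    rw [b, h] at this
    exact hirr _ this
  · have a' : X (k - 1) = (!F.σ (k - 1)) := by
      rw [← bool_ne_not a, Bool.not_not]
    by_cases b : X (k + 1) = F.τ (k - 1)
    · rw [a', b, ← hs] at h
      have := hedge (k - 1) h1 (F.σ (k - 1))
      rw [← h] at this
      exact hirr _ this
    · have b' : X (k + 1) = (!F.τ (k - 1)) := by
        rw [← bool_ne_not b, Bool.not_not]
      rw [a', b'] at h
      exact hd h.symm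

/-- Auxiliary recursion producing a choice whose complement is also valid. -/
def aux (F : Frame R) : ℕ → Bool
  | 0 => false
  | 1 => false
  | (n + 2) => !(xor (aux F n) (xor (F.σ n) (F.τ n)))

/-- The extremal choice. -/
def top (F : Frame R) (k : ℤ) : Bool := aux F k.toNat

theorem top_add_two {k : ℤ} (hk : 0 ≤ k) :
    F.top (k + 2) = !(xor (F.top k) (xor (F.σ k) (F.τ k))) := by
  obtain ⟨n, rfl⟩ := Int.eq_ofNat_of_zero_le hk
  unfold top
  have : ((n : ℤ) + 2).toNat = n + 2 := by omega
  rw [this]
  simp [aux]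

theorem valid_top : F.Valid F.top := by
  intro k hk _ ⟨h1, h2⟩
  rw [F.top_add_two (F.nonneg k hk), h1] at h2
  revert h2
  cases F.σ k <;> cases F.τ k <;> simp

theorem valid_not_top : F.Valid (fun k => !F.top k) := by
  intro k hk _ ⟨h1, h2⟩
  simp only at h1 h2
  rw [F.top_add_two (F.nonneg k hk)] at h2
  have h1' : F.top k = !F.σ k := by rw [← h1, Bool.not_not]
  rw [h1'] at h2
  revert h2
  cases F.σ k <;> cases F.τ k <;> simp

/-- Gluing valid choices at a cut. -/
theorem valid_glue {X Y : ℤ → Bool} (hX : F.Valid X) (hY : F.Valid Y) {k : ℤ}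
    (h0 : k ∉ F.C) (h1 : k - 1 ∉ F.C) : F.Valid (fun i => if i ≤ k then X i else Y i) := by
  intro i hi hi2
  simp only
  have e1 : i ≠ k := fun h => h0 (h ▸ hi)
  have e2 : i ≠ k - 1 := fun h => h1 (h ▸ hi)
  by_cases h : i ≤ k
  · have h' : i + 2 ≤ k := by omega
    rw [if_pos h, if_pos h']
    exact hX i hi hi2
  · have h' : ¬ i + 2 ≤ k := by omega
    rw [if_neg h, if_neg h']
    exact hY i hi hi2

/-- The centres where two choices differ. -/
def diff (F : Frame R) (X Y : ℤ → Bool) : Finset ℤ := F.C.filter (fun k => X k ≠ Y k)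

theorem mem_diff {X Y : ℤ → Bool} {k : ℤ} : k ∈ F.diff X Y ↔ k ∈ F.C ∧ X k ≠ Y k := by
  simp [diff]

theorem diff_toggle {X Y : ℤ → Bool} {k : ℤ} (hk : k ∈ F.diff X Y) :
    F.diff (toggle X k) Y = (F.diff X Y).erase k := by
  rw [mem_diff] at hk
  ext i
  rw [Finset.mem_erase, mem_diff, mem_diff]
  by_cases h : i = k
  · subst h
    rw [toggle_same]
    have := bool_ne_not hk.2
    simp [this]
  · rw [toggle_ne X h]
    simp [h]

theorem word_congr {X Y : ℤ → Bool} (h : ∀ k ∈ F.C, X k = Y k) : F.word X = F.word Y := by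
  funext j
  unfold word
  by_cases h1 : j - 1 ∈ F.C
  · simp [h1, h _ h1]
  · by_cases h0 : j ∈ F.C
    · by_cases h2 : j - 2 ∈ F.C
      · simp [h1, h0, h2, h _ h2, h _ h0]
      · simp [h1, h0, h2, h _ h0]
    · by_cases h2 : j - 2 ∈ F.C
      · simp [h1, h0, h2, h _ h2]
      · simp [h1, h0, h2]

/-- From a valid choice one can always move closer to any other valid choice. -/
theorem exists_toggle_closer {X Y : ℤ → Bool} (hX : F.Valid X) (hY : F.Valid Y)
    (hne : (F.diff X Y).Nonempty) : ∃ k ∈ F.diff X Y, F.Valid (toggle X k) := by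
  classical
  -- elements which are not blocked on the left
  let T := (F.diff X Y).filter
    (fun k => ¬ (k - 2 ∈ F.C ∧ X (k - 2) = F.σ (k - 2) ∧ (!X k) = F.τ (k - 2)))
  have hT : T.Nonempty := by
    refine ⟨(F.diff X Y).min' hne, ?_⟩
    have hm := (F.diff X Y).min'_mem hne
    set k := (F.diff X Y).min' hne with hk
    rw [Finset.mem_filter]
    refine ⟨hm, ?_⟩
    rintro ⟨hc, hs, ht⟩
    rw [mem_diff] at hm
    have hk' : k - 2 + 2 = k := by ring
    have hy := hY (k - 2) hc (by rw [hk']; exact hm.1)
    rw [hk'] at hy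
    have hyk : Y k = F.τ (k - 2) := by rw [← ht, bool_ne_not hm.2]
    have hyk2 : X (k - 2) ≠ Y (k - 2) := by
      intro h
      exact hy ⟨by rw [← h, hs], hyk⟩
    have hmem : k - 2 ∈ F.diff X Y := by rw [mem_diff]; exact ⟨hc, hyk2⟩
    have := (F.diff X Y).min'_le _ hmem
    omega
  obtain hmax := T.max'_mem hT
  set k := T.max' hT with hk
  rw [Finset.mem_filter] at hmax
  obtain ⟨hkd, hkl⟩ := hmax
  refine ⟨k, hkd, ?_⟩
  have hkd' := (F.mem_diff).1 hkd
  have hkr : ¬ (k + 2 ∈ F.C ∧ (!X k) = F.σ k ∧ X (k + 2) = F.τ k) := by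
    rintro ⟨hc, hs, ht⟩
    have hy := hY k hkd'.1 hc
    have hyk : Y k = F.σ k := by rw [← hs, bool_ne_not hkd'.2]
    have hyk2 : X (k + 2) ≠ Y (k + 2) := by
      intro h
      exact hy ⟨hyk, by rw [← h, ht]⟩
    have hmem : k + 2 ∈ T := by
      rw [Finset.mem_filter, mem_diff]
      refine ⟨⟨hc, hyk2⟩, ?_⟩
      rintro ⟨-, a, -⟩
      have e : k + 2 - 2 = k := by ring
      rw [e] at a
      rw [a] at hs
      revert hs
      cases F.σ k <;> simp
    have := T.le_max' _ hmem
    omega
  intro i hi hi2
  by_cases e1 : i = k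
  · rw [e1] at hi hi2 ⊢
    rw [toggle_same, toggle_ne X (by omega : k + 2 ≠ k)]
    exact fun h => hkr ⟨hi2, h⟩
  · by_cases e2 : i + 2 = k
    · have e3 : i = k - 2 := by omega
      rw [e2, toggle_same, toggle_ne X e1]
      rw [e3] at hi ⊢
      exact fun h => hkl ⟨hi, h⟩
    · rw [toggle_ne X e1, toggle_ne X e2]
      exact hX i hi hi2

theorem reachable (hR : ∀ a b, R a b → R b a) {X Y : ℤ → Bool} (hX : F.Valid X)
    (hY : F.Valid Y) : Relation.ReflTransGen (Step R) (F.word X) (F.word Y) := by
  generalize hn : (F.diff X Y).card = n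
  induction n generalizing X with
  | zero =>
    have h0 : F.diff X Y = ∅ := Finset.card_eq_zero.1 hn
    have : F.word X = F.word Y := by
      apply F.word_congr
      intro k hk
      by_contra h
      have : k ∈ F.diff X Y := by rw [mem_diff]; exact ⟨hk, h⟩
      rw [h0] at this
      simp at this
    rw [this]
  | succ n ih =>
    have hne : (F.diff X Y).Nonempty := by
      rw [← Finset.card_pos]; omega
    obtain ⟨k, hk, hv⟩ := F.exists_toggle_closer hX hY hne
    have hk' := (F.mem_diff).1 hk
    have hstep := F.stepAt_toggle hR hk'.1 hX hv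
    refine Relation.ReflTransGen.head ⟨k, hstep⟩ (ih hv ?_)
    rw [F.diff_toggle hk, Finset.card_erase_of_mem hk]
    omega

/-- Data needed to add a new centre `k` to a frame. -/
def extend (k : ℤ) (X : ℤ → Bool) (hpos : 0 ≤ k) (h0 : k ∉ F.C) (h1 : k - 1 ∉ F.C)
    (h2 : k + 1 ∉ F.C) (hs1 : R (F.word X k) (F.word X (k + 1)))
    (hs2 : F.word X (k + 2) = F.word X k)
    (hd1 : F.word X (k + 1) ≠ F.word X (k + 3)) (hd2 : F.word X (k - 1) ≠ F.word X (k + 1)) :
    Frame R where
  C := insert k F.C
  e := Function.update F.e k (fun b => if b then F.word X (k + 1) else F.word X k)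
  σ := Function.update (Function.update F.σ k false) (k - 2) (!X (k - 2))
  τ := Function.update (Function.update F.τ k (!X (k + 2))) (k - 2) false
  w := F.w
  nonneg := by
    intro i hi
    rcases Finset.mem_insert.1 hi with rfl | hi
    · exact hpos
    · exact F.nonneg i hi
  nonadj := by
    intro i hi
    rw [Finset.mem_insert]
    rcases Finset.mem_insert.1 hi with rfl | hi
    · rintro (h | h)
      · omega
      · exact h2 h
    · rintro (h | h)
      · have : i = k - 1 := by omega
        rw [this] at hi
        exact h1 hi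
      · exact F.nonadj i hi h
  edge := by
    intro i hi
    by_cases hik : i = k
    · subst hik
      simpa using hs1
    · rw [Function.update_of_ne hik]
      rcases Finset.mem_insert.1 hi with h | hi
      · exact absurd h hik
      · exact F.edge i hi
  shared := by
    intro i hi hi2
    by_cases hik : i = k
    · subst hik
      have hi3 : i + 2 ∈ F.C := by
        rcases Finset.mem_insert.1 hi2 with h | h
        · omega
        · exact h
      rw [Function.update_self, Function.update_of_ne (by omega : i ≠ i - 2),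
        Function.update_of_ne (by omega : i ≠ i - 2), Function.update_self, Function.update_self,
        Function.update_of_ne (by omega : i + 2 ≠ i)]
      have := F.word_left_end X hi3 (by
        have e : i + 2 - 2 = i := by ring
        rw [e]; exact h0)
      rw [← this, hs2]
      simp
    · by_cases hik2 : i = k - 2
      · subst hik2
        have hi3 : k - 2 ∈ F.C := by
          rcases Finset.mem_insert.1 hi with h | h
          · omega
          · exact h
        have e : k - 2 + 2 = k := by ring
        rw [Function.update_self, Function.update_self, e, Function.update_self,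
          Function.update_of_ne (by omega : k - 2 ≠ k)]
        have := F.word_right_end X hi3 (by rw [e]; exact h0)
        rw [← this, e]
        simp
      · have hi3 : i ∈ F.C := by
          rcases Finset.mem_insert.1 hi with h | h
          · exact absurd h hik
          · exact h
        have hik3 : i + 2 ≠ k := by omega
        have hi4 : i + 2 ∈ F.C := by
          rcases Finset.mem_insert.1 hi2 with h | h
          · exact absurd h hik3
          · exact h
        rw [Function.update_of_ne hik, Function.update_of_ne hik2, Function.update_of_ne hik,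
          Function.update_of_ne hik2, Function.update_of_ne hik, Function.update_of_ne hik3]
        exact F.shared i hi3 hi4
  distinct := by
    intro i hi hi2
    by_cases hik : i = k
    · subst hik
      have hi3 : i + 2 ∈ F.C := by
        rcases Finset.mem_insert.1 hi2 with h | h
        · omega
        · exact h
      rw [Function.update_self, Function.update_of_ne (by omega : i ≠ i - 2),
        Function.update_of_ne (by omega : i ≠ i - 2), Function.update_self, Function.update_self,
        Function.update_of_ne (by omega : i + 2 ≠ i)]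
      have := F.word_center X hi3
      have e : i + 2 + 1 = i + 3 := by ring
      rw [e] at this
      rw [Bool.not_not, ← this]
      simpa using hd1
    · by_cases hik2 : i = k - 2
      · subst hik2
        have hi3 : k - 2 ∈ F.C := by
          rcases Finset.mem_insert.1 hi with h | h
          · omega
          · exact h
        have e : k - 2 + 2 = k := by ring
        rw [Function.update_self, Function.update_self, e, Function.update_self,
          Function.update_of_ne (by omega : k - 2 ≠ k)]
        have := F.word_center X hi3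
        have e' : k - 2 + 1 = k - 1 := by ring
        rw [e'] at this
        rw [Bool.not_not, ← this]
        simpa using hd2
      · have hi3 : i ∈ F.C := by
          rcases Finset.mem_insert.1 hi with h | h
          · exact absurd h hik
          · exact h
        have hik3 : i + 2 ≠ k := by omega
        have hi4 : i + 2 ∈ F.C := by
          rcases Finset.mem_insert.1 hi2 with h | h
          · exact absurd h hik3
          · exact h
        rw [Function.update_of_ne hik, Function.update_of_ne hik2, Function.update_of_ne hik,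
          Function.update_of_ne hik2, Function.update_of_ne hik, Function.update_of_ne hik3]
        exact F.distinct i hi3 hi4

theorem valid_extend {k : ℤ} {X : ℤ → Bool} (hpos : 0 ≤ k) (h0 : k ∉ F.C) (h1 : k - 1 ∉ F.C)
    (h2 : k + 1 ∉ F.C) (hs1 : R (F.word X k) (F.word X (k + 1)))
    (hs2 : F.word X (k + 2) = F.word X k)
    (hd1 : F.word X (k + 1) ≠ F.word X (k + 3)) (hd2 : F.word X (k - 1) ≠ F.word X (k + 1))
    {X0 : ℤ → Bool} (hX0 : F.Valid X0) :
    (F.extend k X hpos h0 h1 h2 hs1 hs2 hd1 hd2).Valid (Function.update X0 k true) := by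
  intro i hi hi2
  by_cases hik : i = k
  · subst hik
    rintro ⟨a, -⟩
    rw [Function.update_self] at a
    simp only [extend] at a
    rw [Function.update_of_ne (by omega : i ≠ i - 2), Function.update_self] at a
    simp at a
  · by_cases hik2 : i + 2 = k
    · rintro ⟨-, a⟩
      rw [hik2, Function.update_self] at a
      have e : i = k - 2 := by omega
      rw [e] at a
      simp [extend] at a
    · have hi3 : i ∈ F.C := by
        rcases Finset.mem_insert.1 hi with h | h
        · exact absurd h hik
        · exact h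
      have hi4 : i + 2 ∈ F.C := by
        rcases Finset.mem_insert.1 hi2 with h | h
        · exact absurd h hik2
        · exact h
      rw [Function.update_of_ne hik, Function.update_of_ne hik2]
      have e : i ≠ k - 2 := by omega
      simp only [extend]
      rw [Function.update_of_ne e, Function.update_of_ne hik, Function.update_of_ne e,
        Function.update_of_ne hik]
      exact hX0 i hi3 hi4

theorem word_extend {k : ℤ} {X : ℤ → Bool} (hpos : 0 ≤ k) (h0 : k ∉ F.C) (h1 : k - 1 ∉ F.C)
    (h2 : k + 1 ∉ F.C) (hs1 : R (F.word X k) (F.word X (k + 1)))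
    (hs2 : F.word X (k + 2) = F.word X k)
    (hd1 : F.word X (k + 1) ≠ F.word X (k + 3)) (hd2 : F.word X (k - 1) ≠ F.word X (k + 1))
    (X0 : ℤ → Bool) :
    (F.extend k X hpos h0 h1 h2 hs1 hs2 hd1 hd2).word (Function.update X0 k true)
      = F.word X0 := by
  set G := F.extend k X hpos h0 h1 h2 hs1 hs2 hd1 hd2 with hG
  have hGC : G.C = insert k F.C := rfl
  have hGe : G.e = Function.update F.e k
    (fun b => if b then F.word X (k + 1) else F.word X k) := rfl
  have hGσ : G.σ = Function.update (Function.update F.σ k false) (k - 2) (!X (k - 2)) := rfl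
  have hGw : G.w = F.w := rfl
  have hkG : k ∈ G.C := by rw [hGC]; exact Finset.mem_insert_self _ _
  have hmem : ∀ i, i ≠ k → (i ∈ G.C ↔ i ∈ F.C) := by
    intro i hi
    rw [hGC, Finset.mem_insert]
    constructor
    · rintro (h | h)
      · exact absurd h hi
      · exact h
    · exact Or.inr
  funext j
  by_cases hj1 : j = k + 1
  · subst hj1
    rw [G.word_center _ hkG, Function.update_self, hGe, Function.update_self]
    have e1 : k + 1 - 1 = k := by ring
    have e2 : k + 1 - 2 = k - 1 := by ring
    have a := F.word_const X h2 (by rw [e1]; exact h0) (by rw [e2]; exact h1)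
    have b := F.word_const X0 h2 (by rw [e1]; exact h0) (by rw [e2]; exact h1)
    rw [b, ← a]
    simp
  by_cases hj2 : j = k + 2
  · subst hj2
    by_cases hc : k + 2 ∈ F.C
    · have hc' : k + 2 ∈ G.C := (hmem _ (by omega)).2 hc
      rw [G.word_right_mid _ hkG hc', if_neg, Function.update_of_ne (by omega : k + 2 ≠ k),
        hGe, Function.update_of_ne (by omega : k + 2 ≠ k)]
      · rw [F.word_left_end X0 hc (by
          have e : k + 2 - 2 = k := by ring
          rw [e]; exact h0)]
      · rw [Function.update_self, hGσ, Function.update_of_ne (by omega : k ≠ k - 2),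
          Function.update_self]
        simp
    · have hc' : k + 2 ∉ G.C := fun h => hc ((hmem _ (by omega)).1 h)
      rw [G.word_right_end _ hkG hc', Function.update_self, hGe, Function.update_self]
      have e1 : k + 2 - 1 = k + 1 := by ring
      have e2 : k + 2 - 2 = k := by ring
      have a := F.word_const X hc (by rw [e1]; exact h2) (by rw [e2]; exact h0)
      have b := F.word_const X0 hc (by rw [e1]; exact h2) (by rw [e2]; exact h0)
      rw [b, ← a, hs2]
      simp
  by_cases hj0 : j = k
  · subst hj0
    by_cases hc : j - 2 ∈ F.C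
    · have hc' : j - 2 ∈ G.C := (hmem _ (by omega)).2 hc
      have e : j - 2 + 2 = j := by ring
      have a := F.word_right_end X hc (by rw [e]; exact h0)
      have b := F.word_right_end X0 hc (by rw [e]; exact h0)
      rw [e] at a b
      rw [G.word_left_mid _ hkG hc', b, Function.update_self,
        Function.update_of_ne (by omega : j - 2 ≠ j), hGσ, Function.update_self, hGe,
        Function.update_self, Function.update_of_ne (by omega : j - 2 ≠ j)]
      split_ifs with h h'
      · rfl
      · simp at h'
      · have := bool_ne_not h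
        rw [Bool.eq_not] at this
        rw [a]
        have h3 : X (j - 2) = X0 (j - 2) := by
          revert h
          cases X0 (j - 2) <;> cases X (j - 2) <;> simp
        rw [h3]
    · have hc' : j - 2 ∉ G.C := fun h => hc ((hmem _ (by omega)).1 h)
      rw [G.word_left_end _ hkG hc', Function.update_self, hGe, Function.update_self]
      have a := F.word_const X h0 h1 hc
      have b := F.word_const X0 h0 h1 hc
      rw [b, ← a]
      simp
  -- all other positions
  have m0 := hmem j hj0
  have m1 := hmem (j - 1) (by omega)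
  have m2 := hmem (j - 2) (by omega)
  have u0 : Function.update X0 k true j = X0 j := Function.update_of_ne hj0 _ _
  have u1 : Function.update X0 k true (j - 1) = X0 (j - 1) :=
    Function.update_of_ne (by omega) _ _
  have u2 : Function.update X0 k true (j - 2) = X0 (j - 2) :=
    Function.update_of_ne (by omega) _ _
  have s2 : G.σ (j - 2) = F.σ (j - 2) := by
    rw [hGσ, Function.update_of_ne (by omega : j - 2 ≠ k - 2),
      Function.update_of_ne (by omega : j - 2 ≠ k)]
  have e0 : G.e j = F.e j := by rw [hGe, Function.update_of_ne hj0]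
  have e1 : G.e (j - 1) = F.e (j - 1) := by
    rw [hGe, Function.update_of_ne (by omega : j - 1 ≠ k)]
  have e2 : G.e (j - 2) = F.e (j - 2) := by
    rw [hGe, Function.update_of_ne (by omega : j - 2 ≠ k)]
  unfold word
  simp only [m0, m1, m2, u0, u1, u2, s2, e0, e1, e2, hGw]

theorem exists_valid_value (k : ℤ) (b : Bool) : ∃ Z, F.Valid Z ∧ Z k = b := by
  by_cases h : F.top k = b
  · exact ⟨F.top, F.valid_top, h⟩
  · exact ⟨_, F.valid_not_top, bool_ne_not h⟩

/-- If the frame is maximal, its words are closed under braid steps. -/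
theorem closure (hR : ∀ a b, R a b → R b a) (hT : ∀ a b c, R a b → R b c → R a c → False)
    {f0 : ℤ → L}
    (H : ∀ g, Relation.ReflTransGen (Step R) f0 g → ∀ k, g k = g (k + 1) → ∀ b, ¬ R (g k) b)
    (Hpos : ∀ g, Relation.ReflTransGen (Step R) f0 g → ∀ k b, R (g k) b → 0 ≤ k)
    {X0 : ℤ → Bool} (hX0 : F.Valid X0) (hw0 : F.word X0 = f0)
    (hmax : ∀ (F' : Frame R) (X' : ℤ → Bool), F'.Valid X' → F'.word X' = f0 →
      F'.C.card ≠ F.C.card + 1)
    {X : ℤ → Bool} (hX : F.Valid X) {k : ℤ} {g : ℤ → L} (hs : StepAt R k (F.word X) g) :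
    k ∈ F.C ∧ F.Valid (toggle X k) ∧ g = F.word (toggle X k) := by
  have hirr : ∀ a, ¬ R a a := fun a h => hT a a a h h h
  have hreach : ∀ Y, F.Valid Y → Relation.ReflTransGen (Step R) f0 (F.word Y) := by
    intro Y hY
    rw [← hw0]
    exact F.reachable hR hX0 hY
  by_cases hk : k ∈ F.C
  · have hv := F.valid_toggle_of_site hR hT hk hX hs.1 hs.2.1
    exact ⟨hk, hv, StepAt.unique hs (F.stepAt_toggle hR hk hX hv)⟩
  exfalso
  by_cases h1 : k - 1 ∈ F.C
  · by_cases h2 : k + 1 ∈ F.C
    · exact F.no_site_between hirr hR hX h1 h2 hs.2.1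
    · -- centre of the site `k - 1` is `k`
      have e1 : k - 1 + 1 = k := by ring
      have e2 : k - 1 + 2 = k + 1 := by ring
      obtain ⟨Z, hZ, hZk⟩ := F.exists_valid_value (k - 1) (!X (k - 1))
      have hY := F.valid_glue hZ hX (k := k + 1) h2 (by
        have e : k + 1 - 1 = k := by ring
        rw [e]; exact hk)
      set Y : ℤ → Bool := fun i => if i ≤ k + 1 then Z i else X i with hYdef
      have hYk : Y (k - 1) = !X (k - 1) := by
        rw [hYdef]
        simp only
        rw [if_pos (by omega), hZk]
      have c1 := F.word_center X h1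
      rw [e1] at c1
      have c2 := F.word_right_end Y h1 (by rw [e2]; exact h2)
      rw [e2, hYk, Bool.not_not] at c2
      have c3 : F.word Y (k + 2) = F.word X (k + 2) := by
        have m1 : k + 2 - 1 ∉ F.C := by
          have e : k + 2 - 1 = k + 1 := by ring
          rw [e]; exact h2
        have m2 : k + 2 - 2 ∉ F.C := by
          have e : k + 2 - 2 = k := by ring
          rw [e]; exact hk
        have m3 : Y (k + 2) = X (k + 2) := by
          rw [hYdef]
          simp only
          rw [if_neg (by omega)]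
        unfold word
        simp only [m1, m2, m3, if_false, false_and]
      have e3 : k + 1 + 1 = k + 2 := by ring
      refine H _ (hreach Y hY) (k + 1) ?_ (F.word X (k + 1)) ?_
      · rw [e3, c2, c3, hs.2.1, c1]
      · rw [c2, ← c1]
        exact hs.1
  · by_cases h2 : k + 1 ∈ F.C
    · obtain ⟨Z, hZ, hZk⟩ := F.exists_valid_value (k + 1) (!X (k + 1))
      have hY := F.valid_glue hX hZ (k := k) hk h1
      set Y : ℤ → Bool := fun i => if i ≤ k then X i else Z i with hYdef
      have hYk : Y (k + 1) = !X (k + 1) := by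
        rw [hYdef]
        simp only
        rw [if_neg (by omega), hZk]
      have e1 : k + 1 + 1 = k + 2 := by ring
      have e2 : k + 1 - 2 = k - 1 := by ring
      have c1 := F.word_center X h2
      rw [e1] at c1
      have c2 := F.word_left_end Y h2 (by rw [e2]; exact h1)
      rw [hYk, Bool.not_not] at c2
      have c3 : F.word Y k = F.word X k := by
        have m3 : Y (k - 2) = X (k - 2) := by
          rw [hYdef]
          simp only
          rw [if_pos (by omega)]
        unfold word
        simp only [h1, hk, m3, if_false]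
      refine H _ (hreach Y hY) k ?_ (F.word X (k + 1)) ?_
      · rw [c2, c3, ← c1, hs.2.1]
      · rw [c3]
        exact hs.1
    · -- new centre
      obtain ⟨s1, s2, s3, s4, s5, s6⟩ := hs
      have hg : Relation.ReflTransGen (Step R) f0 g :=
        (hreach X hX).tail ⟨k, s1, s2, s3, s4, s5, s6⟩
      have hpos : 0 ≤ k := Hpos _ (hreach X hX) k _ s1
      have hd1 : F.word X (k + 1) ≠ F.word X (k + 3) := by
        intro h
        have e : k + 2 + 1 = k + 3 := by ring
        have a := s6 (k + 3) (by omega) (by omega) (by omega)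
        refine H g hg (k + 2) ?_ (F.word X k) ?_
        · rw [e, a, s5, h]
        · rw [s5]; exact hR _ _ s1
      have hd2 : F.word X (k - 1) ≠ F.word X (k + 1) := by
        intro h
        have e : k - 1 + 1 = k := by ring
        have a := s6 (k - 1) (by omega) (by omega) (by omega)
        refine H g hg (k - 1) ?_ (F.word X k) ?_
        · rw [e, a, s3, h]
        · rw [a, h]; exact hR _ _ s1
      refine hmax (F.extend k X hpos hk h1 h2 s1 s2 hd1 hd2) _
        (F.valid_extend hpos hk h1 h2 s1 s2 hd1 hd2 hX0) ?_ ?_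
      · rw [F.word_extend hpos hk h1 h2 s1 s2 hd1 hd2, hw0]
      · change (insert k F.C).card = _
        rw [Finset.card_insert_of_notMem hk]

end Frame

end Pool.Agent.Helper18.BraidFrame
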