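import Mathlib
import Pool.Agent.Helper18.AddMain

set_option autoImplicit false

namespace Pool.Agent.Helper18.Coset

open Finset Pool.Agent.Helper18.PTree Pool.Agent.Helper18.Additive
open scoped Pointwise

/-- Two integers differ by a factor in `Γ`. -/
def Rel (Γ : Subgroup ℚˣ) (x y : ℤ) : Prop := ∃ γ ∈ Γ, (x : ℚ) = y * ((γ : ℚˣ) : ℚ)

/-- An element of `Γ` is determined by its valuations at the primes of `Q`. -/
def Det (Γ : Subgroup ℚˣ) (Q : Finset ℕ) : Prop :=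
  ∀ γ ∈ Γ, (∀ q ∈ Q, padicValRat q ((γ : ℚˣ) : ℚ) = 0) → γ = 1

/-- The subgroup of elements with trivial valuation at `p`. -/
def ker (p : ℕ) [Fact p.Prime] : Subgroup ℚˣ where
  carrier := {γ | padicValRat p ((γ : ℚˣ) : ℚ) = 0}
  one_mem' := by simp
  mul_mem' := by
    intro a b ha hb
    simp only [Set.mem_ofPred_eq] at ha hb ⊢
    rw [Units.val_mul, padicValRat.mul a.ne_zero b.ne_zero, ha, hb, add_zero]
  inv_mem' := by
    intro a ha
    simp only [Set.mem_ofPred_eq] at ha ⊢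
    rw [Units.val_inv_eq_inv_val, padicValRat.inv, ha, neg_zero]

theorem mem_ker {p : ℕ} [Fact p.Prime] {γ : ℚˣ} :
    γ ∈ ker p ↔ padicValRat p ((γ : ℚˣ) : ℚ) = 0 := Iff.rfl

theorem spread (K : ℕ) (hK1 : 1 ≤ K) (n : ℕ) :
    ∀ (Q : Finset ℕ) (Γ : Subgroup ℚˣ) (D : Finset ℤ) (lab : ℤ → ℚ), Q.card = n →
      (∀ p ∈ Q, p.Prime) → Det Γ Q → (∀ x ∈ D, x ≠ 0) →
      (∀ x ∈ D, ∀ y ∈ D, lab x = lab y → Rel Γ x y) →
      K ^ n * (D.image lab).card < D.card →
      ∃ D' ⊆ D, ∃ Q' ⊆ Q, ∃ Γ' : Subgroup ℚˣ, Q'.Nonempty ∧ Det Γ' Q' ∧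
        (∀ p ∈ Q', ∀ i : ℤ → ℕ, (∀ x ∈ D', ∀ y ∈ D', Rel Γ' x y → i x = i y) →
          K * (D'.filter (fun x => padicValInt p x = i x)).card ≤ D'.card) ∧
        D.card ≤ K ^ n * D'.card := by
  classical
  induction n with
  | zero =>
    intro Q Γ D lab hQn hQ hdet hD0 hlab hcard
    exfalso
    have hQe : Q = ∅ := Finset.card_eq_zero.1 hQn
    have hinj : Set.InjOn lab D := by
      intro x hx y hy hxy
      obtain ⟨γ, hγ, h⟩ := hlab x hx y hy hxy
      have := hdet γ hγ (by rw [hQe]; simp)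
      rw [this] at h
      simpa using h
    rw [Finset.card_image_of_injOn hinj] at hcard
    simp at hcard
  | succ n ih =>
    intro Q Γ D lab hQn hQ hdet hD0 hlab hcard
    by_cases hH : ∀ p ∈ Q, ∀ i : ℤ → ℕ, (∀ x ∈ D, ∀ y ∈ D, Rel Γ x y → i x = i y) →
          K * (D.filter (fun x => padicValInt p x = i x)).card ≤ D.card
    · refine ⟨D, Finset.Subset.refl _, Q, Finset.Subset.refl _, Γ, ?_, hdet, hH, ?_⟩
      · rw [← Finset.card_pos]; omega
      · exact Nat.le_mul_of_pos_left _ (by positivity)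
    · push Not at hH
      obtain ⟨p, hp, i, hi, hlt⟩ := hH
      have hpf : Fact p.Prime := ⟨hQ p hp⟩
      set D1 := D.filter (fun x => padicValInt p x = i x) with hD1
      have hD1sub : D1 ⊆ D := Finset.filter_subset _ _
      have hlab1 : ∀ x ∈ D1, ∀ y ∈ D1, lab x = lab y → Rel (Γ ⊓ ker p) x y := by
        intro x hx y hy hxy
        rw [hD1, Finset.mem_filter] at hx hy
        have hrel := hlab x hx.1 y hy.1 hxy
        have hixy := hi x hx.1 y hy.1 hrel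
        obtain ⟨γ, hγ, h⟩ := hrel
        refine ⟨γ, Subgroup.mem_inf.2 ⟨hγ, ?_⟩, h⟩
        rw [mem_ker]
        have hx0 : (x : ℚ) ≠ 0 := by exact_mod_cast hD0 x hx.1
        have hy0 : (y : ℚ) ≠ 0 := by exact_mod_cast hD0 y hy.1
        have h1 := congrArg (padicValRat p) h
        rw [padicValRat.mul hy0 γ.ne_zero, padicValRat.of_int, padicValRat.of_int,
          hx.2, hy.2, hixy] at h1
        linarith
      have hdet1 : Det (Γ ⊓ ker p) (Q.erase p) := by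
        intro γ hγ hq
        rw [Subgroup.mem_inf, mem_ker] at hγ
        apply hdet γ hγ.1
        intro q hqQ
        by_cases e : q = p
        · rw [e]; exact hγ.2
        · exact hq q (Finset.mem_erase.2 ⟨e, hqQ⟩)
      have hc1 : K ^ n * (D1.image lab).card < D1.card := by
        have h1 : (D1.image lab).card ≤ (D.image lab).card :=
          Finset.card_le_card (Finset.image_subset_image hD1sub)
        have h2 : K * (K ^ n * (D1.image lab).card) < K * D1.card := by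
          calc K * (K ^ n * (D1.image lab).card) = K ^ (n + 1) * (D1.image lab).card := by
                rw [pow_succ]; ring
            _ ≤ K ^ (n + 1) * (D.image lab).card := Nat.mul_le_mul_left _ h1
            _ < D.card := hcard
            _ < K * D1.card := hlt
        exact lt_of_mul_lt_mul_left h2 (Nat.zero_le _)
      obtain ⟨D', hD', Q', hQ', Γ', h1, h2, h3, h4⟩ := ih (Q.erase p) (Γ ⊓ ker p) D1 lab
        (by rw [Finset.card_erase_of_mem hp]; omega)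
        (fun q hq => hQ q (Finset.mem_of_mem_erase hq)) hdet1
        (fun x hx => hD0 x (hD1sub hx)) hlab1 hc1
      refine ⟨D', hD'.trans hD1sub, Q', hQ'.trans (Finset.erase_subset _ _), Γ', h1, h2, h3, ?_⟩
      calc D.card ≤ K * D1.card := hlt.le
        _ ≤ K * (K ^ n * D'.card) := Nat.mul_le_mul_left _ h4
        _ = K ^ (n + 1) * D'.card := by rw [pow_succ]; ring

/-- The unit attached to an integer. -/
noncomputable def toU (x : ℤ) : ℚˣ := if h : (x : ℚ) ≠ 0 then Units.mk0 (x : ℚ) h else 1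

theorem toU_val {x : ℤ} (h : x ≠ 0) : ((toU x : ℚˣ) : ℚ) = x := by
  have h' : (x : ℚ) ≠ 0 := by exact_mod_cast h
  unfold toU
  rw [dif_pos h']
  rfl

/-- Elements whose valuation vector at `Q` is that of an element of `Γ`. -/
def hull (Γ : Subgroup ℚˣ) (Q : Finset ℕ) (hQ : ∀ p ∈ Q, p.Prime) : Subgroup ℚˣ where
  carrier := {g | ∃ γ ∈ Γ, ∀ q ∈ Q, padicValRat q ((g : ℚˣ) : ℚ) = padicValRat q ((γ : ℚˣ) : ℚ)}
  one_mem' := ⟨1, Γ.one_mem, fun _ _ => rfl⟩
  mul_mem' := by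
    rintro a b ⟨γ, hγ, h⟩ ⟨γ', hγ', h'⟩
    refine ⟨γ * γ', Γ.mul_mem hγ hγ', ?_⟩
    intro q hq
    have : Fact q.Prime := ⟨hQ q hq⟩
    rw [Units.val_mul, Units.val_mul, padicValRat.mul a.ne_zero b.ne_zero,
      padicValRat.mul γ.ne_zero γ'.ne_zero, h q hq, h' q hq]
  inv_mem' := by
    rintro a ⟨γ, hγ, h⟩
    refine ⟨γ⁻¹, Γ.inv_mem hγ, ?_⟩
    intro q hq
    have : Fact q.Prime := ⟨hQ q hq⟩
    rw [Units.val_inv_eq_inv_val, Units.val_inv_eq_inv_val, padicValRat.inv, padicValRat.inv,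
      h q hq]

theorem det_eq {Γ : Subgroup ℚˣ} {Q : Finset ℕ} (hQ : ∀ p ∈ Q, p.Prime) (hdet : Det Γ Q)
    {a b : ℚˣ} (ha : a ∈ Γ) (hb : b ∈ Γ)
    (h : ∀ q ∈ Q, padicValRat q ((a : ℚˣ) : ℚ) = padicValRat q ((b : ℚˣ) : ℚ)) : a = b := by
  have := hdet (a * b⁻¹) (Γ.mul_mem ha (Γ.inv_mem hb)) (by
    intro q hq
    have : Fact q.Prime := ⟨hQ q hq⟩
    rw [Units.val_mul, padicValRat.mul a.ne_zero b⁻¹.ne_zero, Units.val_inv_eq_inv_val,
      padicValRat.inv, h q hq, add_neg_cancel])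
  rwa [mul_inv_eq_one] at this

/-- Normalised coset representatives. -/
theorem exists_rep (Γ : Subgroup ℚˣ) (Q : Finset ℕ) (hQ : ∀ p ∈ Q, p.Prime) (hdet : Det Γ Q)
    (D : Finset ℤ) (hD0 : ∀ x ∈ D, x ≠ 0) :
    ∃ c : ℤ → ℤ, (∀ x ∈ D, c x ≠ 0) ∧ (∀ x ∈ D, ∀ y ∈ D, Rel Γ x y → c x = c y) ∧
      (∀ x ∈ D, ∀ y ∈ D, (∀ p ∈ Q, padicValInt p x = padicValInt p y) →
        x * c y = y * c x) := by
  classical
  let r : ℚˣ → ℚˣ := fun u => (QuotientGroup.mk u : ℚˣ ⧸ hull Γ Q hQ).out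
  have hr : ∀ u, (r u)⁻¹ * u ∈ hull Γ Q hQ := by
    intro u
    rw [← QuotientGroup.eq]
    exact Quotient.out_eq' _
  have hr2 : ∀ u u', u⁻¹ * u' ∈ hull Γ Q hQ → r u = r u' := by
    intro u u' h
    have : (QuotientGroup.mk u : ℚˣ ⧸ hull Γ Q hQ) = QuotientGroup.mk u' :=
      QuotientGroup.eq.2 h
    simp only [r, this]
  choose g hgΓ hg using hr
  have valmul : ∀ q ∈ Q, ∀ a b : ℚˣ, padicValRat q ((a * b : ℚˣ) : ℚ) =
      padicValRat q (a : ℚ) + padicValRat q (b : ℚ) := by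
    intro q hq a b
    have : Fact q.Prime := ⟨hQ q hq⟩
    rw [Units.val_mul, padicValRat.mul a.ne_zero b.ne_zero]
  let cQ : ℚˣ → ℚˣ := fun u => u * (g u)⁻¹
  have hc1 : ∀ u γ0, γ0 ∈ Γ → cQ (u * γ0) = cQ u := by
    intro u γ0 hγ0
    have hru : r (u * γ0) = r u := by
      symm
      apply hr2
      refine ⟨γ0, hγ0, ?_⟩
      intro q hq
      rw [inv_mul_cancel_left]
    have hgg : g (u * γ0) = g u * γ0 := by
      apply det_eq hQ hdet (hgΓ _) (Γ.mul_mem (hgΓ _) hγ0)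
      intro q hq
      rw [← hg (u * γ0) q hq, hru, valmul q hq, valmul q hq, valmul q hq, ← hg u q hq,
        valmul q hq]
      ring
    simp only [cQ, hgg]
    rw [mul_inv_rev]
    group
  have hc2 : ∀ u u' : ℚˣ, (∀ q ∈ Q, padicValRat q ((u : ℚˣ) : ℚ) =
      padicValRat q ((u' : ℚˣ) : ℚ)) → g u = g u' := by
    intro u u' h
    have hru : r u = r u' := by
      apply hr2
      refine ⟨1, Γ.one_mem, ?_⟩
      intro q hq
      have : Fact q.Prime := ⟨hQ q hq⟩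
      rw [valmul q hq, Units.val_inv_eq_inv_val, padicValRat.inv, h q hq]
      simp
    apply det_eq hQ hdet (hgΓ _) (hgΓ _)
    intro q hq
    rw [← hg u q hq, ← hg u' q hq, hru, valmul q hq, valmul q hq, h q hq]
  let M : ℕ := ∏ x ∈ D, ((cQ (toU x) : ℚˣ) : ℚ).den
  have hM0 : M ≠ 0 := by
    rw [Finset.prod_ne_zero_iff]
    intro x _
    exact Rat.den_ne_zero _
  let c : ℤ → ℤ := fun x => ((M : ℚ) * ((cQ (toU x) : ℚˣ) : ℚ)).num
  have hcval : ∀ x ∈ D, (c x : ℚ) = (M : ℚ) * ((cQ (toU x) : ℚˣ) : ℚ) := by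
    intro x hx
    have hdvd : ((cQ (toU x) : ℚˣ) : ℚ).den ∣ M := Finset.dvd_prod_of_mem _ hx
    obtain ⟨k, hk⟩ := hdvd
    have hint : (M : ℚ) * ((cQ (toU x) : ℚˣ) : ℚ) =
        ((k * ((cQ (toU x) : ℚˣ) : ℚ).num : ℤ) : ℚ) := by
      have h1 : ((cQ (toU x) : ℚˣ) : ℚ) * ((cQ (toU x) : ℚˣ) : ℚ).den =
          ((cQ (toU x) : ℚˣ) : ℚ).num := Rat.mul_den_eq_num _
      rw [hk]
      push_cast
      rw [← h1]
      ring
    simp only [c]
    rw [hint, Rat.num_intCast]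
  refine ⟨c, ?_, ?_, ?_⟩
  · intro x hx h
    have := hcval x hx
    rw [h] at this
    simp only [Int.cast_zero] at this
    have h1 : (M : ℚ) ≠ 0 := by exact_mod_cast hM0
    exact (mul_ne_zero h1 (Units.ne_zero _)) this.symm
  · intro x hx y hy ⟨γ, hγ, h⟩
    have : toU x = toU y * γ := by
      apply Units.ext
      rw [Units.val_mul, toU_val (hD0 x hx), toU_val (hD0 y hy), h]
    simp only [c]
    rw [this, hc1 _ _ hγ]
  · intro x hx y hy h
    have hgg : g (toU x) = g (toU y) := by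
      apply hc2
      intro q hq
      have : Fact q.Prime := ⟨hQ q hq⟩
      rw [toU_val (hD0 x hx), toU_val (hD0 y hy), padicValRat.of_int, padicValRat.of_int,
        h q hq]
    have : (x : ℚ) * (c y : ℚ) = y * c x := by
      rw [hcval x hx, hcval y hy]
      simp only [cQ, Units.val_mul]
      rw [toU_val (hD0 x hx), toU_val (hD0 y hy), hgg]
      ring
    exact_mod_cast this

/-- Additive theorem for few cosets, in terms of natural parameters. -/
theorem few_cosets_param (Γ : Subgroup ℚˣ) (Q : Finset ℕ) (hQ : ∀ p ∈ Q, p.Prime)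
    (hdet : Det Γ Q) (D : Finset ℤ) (lab : ℤ → ℚ) (hD0 : ∀ x ∈ D, x ≠ 0)
    (hlab : ∀ x ∈ D, ∀ y ∈ D, lab x = lab y → Rel Γ x y)
    {t m w N : ℕ} {θ : ℝ} (hθ0 : 0 ≤ θ) (hθ : θ ≤ 1 / 2) (hQt : Q.card ≤ t) (ht : 1 ≤ t)
    (hm1 : 1 ≤ m) (hN : D.card ≤ N)
    (hm : ∀ k : ℕ, (1 : ℝ) ≤ (1 - θ) ^ k * N → k ≤ m)
    (hw : ∀ k : ℕ, (1 : ℝ) ≤ θ ^ k * N → k ≤ w)
    (hcard : (64 * t ^ 2 * m ^ 3) ^ t * (D.image lab).card < D.card) :
    D.card ^ 2 ≤ (64 * t ^ 2 * m ^ 3) ^ (2 * t) * (2 * (2 ^ (2 * w)) ^ t) * (D + D).card := by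
  classical
  set K := 64 * t ^ 2 * m ^ 3 with hKdef
  have hK1 : 1 ≤ K := by
    rw [hKdef]
    have : 0 < 64 * t ^ 2 * m ^ 3 := by positivity
    omega
  obtain ⟨D', hD', Q', hQ', Γ', hQ'ne, hdet', hH, hDD'⟩ := spread K hK1 Q.card Q Γ D lab rfl hQ
    hdet hD0 hlab (lt_of_le_of_lt (Nat.mul_le_mul_right _ (Nat.pow_le_pow_right hK1 hQt)) hcard)
  have hQ'p : ∀ p ∈ Q', p.Prime := fun p hp => hQ p (hQ' hp)
  have hD'0 : ∀ x ∈ D', x ≠ 0 := fun x hx => hD0 x (hD' hx)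
  obtain ⟨c, hc0, hc1, hc2⟩ := exists_rep Γ' Q' hQ'p hdet' D' hD'0
  obtain ⟨p0, hp0⟩ := hQ'ne
  let V1 : ℕ := (Q' ×ˢ (D' ×ˢ D')).sup (fun q => lev q.1 q.2.1 q.2.2)
  let V2 : ℕ := (D' ×ˢ D').sup (fun q => lev p0 (c q.1) (c q.2))
  let V : ℕ := V1 + V2 + 1
  have hV1 : ∀ p ∈ Q', ∀ x ∈ D', ∀ y ∈ D', lev p x y ≤ V1 := by
    intro p hp x hx y hy
    exact Finset.le_sup (f := fun q : ℕ × ℤ × ℤ => lev q.1 q.2.1 q.2.2)
      (b := (p, x, y)) (by simp [hp, hx, hy])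
  have hV2 : ∀ x ∈ D', ∀ y ∈ D', lev p0 (c x) (c y) ≤ V2 := by
    intro x hx y hy
    exact Finset.le_sup (f := fun q : ℤ × ℤ => lev p0 (c q.1) (c q.2))
      (b := (x, y)) (by simp [hx, hy])
  have hD'N : (D'.card : ℝ) ≤ N := by
    have := (Finset.card_le_card hD').trans hN
    exact_mod_cast this
  have hB'N : ((D'.image c).card : ℝ) ≤ N := by
    have := (Finset.card_image_le (s := D') (f := c)).trans ((Finset.card_le_card hD').trans hN)
    exact_mod_cast this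
  have h1θ : 0 ≤ 1 - θ := by linarith
  have hdropsm : ∀ (p : ℕ) (X : Finset ℤ), (X.card : ℝ) ≤ N → ∀ x ∈ X,
      (drops p X (1 - θ) V x).card ≤ m := by
    intro p X hX x hx
    apply hm
    refine (one_le_pow_drops p h1θ V hx).trans ?_
    exact mul_le_mul_of_nonneg_left hX (pow_nonneg h1θ _)
  have hdropsw : ∀ (p : ℕ) (X : Finset ℤ), (X.card : ℝ) ≤ N → ∀ x ∈ X,
      (drops p X θ V x).card ≤ w := by
    intro p X hX x hx
    apply hw
    refine (one_le_pow_drops p hθ0 V hx).trans ?_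
    exact mul_le_mul_of_nonneg_left hX (pow_nonneg hθ0 _)
  have hQ't : Q'.card ≤ t := (Finset.card_le_card hQ').trans hQt
  have hadd := additive Q' hQ'p hp0 D' c hθ (V := V) (m := m) (w := w) (K := K) hm1 hD'0 hc0
    (fun p hp x hx y hy _ => by have := hV1 p hp x hx y hy; omega)
    (fun x hx y hy _ => by have := hV2 x hx y hy; omega)
    (fun p _ x hx => hdropsm p D' hD'N x hx)
    (fun b hb => hdropsm p0 (D'.image c) hB'N b hb)
    (fun p _ x hx => hdropsw p D' hD'N x hx)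
    hc2
    (fun p hp i => hH p hp (fun x => i (c x)) (fun x hx y hy hxy => by
      simp only [hc1 x hx y hy hxy]))
    (by
      rw [hKdef]
      gcongr)
  calc D.card ^ 2 ≤ (K ^ Q.card * D'.card) ^ 2 := Nat.pow_le_pow_left hDD' 2
    _ = (K ^ Q.card) ^ 2 * D'.card ^ 2 := by ring
    _ ≤ (K ^ t) ^ 2 * D'.card ^ 2 := by
        apply Nat.mul_le_mul_right
        exact Nat.pow_le_pow_left (Nat.pow_le_pow_right hK1 hQt) 2
    _ ≤ (K ^ t) ^ 2 * (2 * (2 ^ (2 * w)) ^ Q'.card * (D' + D').card) :=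
        Nat.mul_le_mul_left _ hadd
    _ ≤ (K ^ t) ^ 2 * (2 * (2 ^ (2 * w)) ^ t * (D + D).card) := by
        apply Nat.mul_le_mul_left
        apply Nat.mul_le_mul
        · apply Nat.mul_le_mul_left
          exact Nat.pow_le_pow_right (by positivity) hQ't
        · exact Finset.card_le_card (Finset.add_subset_add hD' hD')
    _ = K ^ (2 * t) * (2 * (2 ^ (2 * w)) ^ t) * (D + D).card := by
        rw [← pow_mul, mul_comm t 2]; ring

end Pool.Agent.Helper18.Coset
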