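import Mathlib
import Pool.Agent.Helper18.Coset

set_option autoImplicit false

namespace Pool.Agent.Helper18.Rank

open Finset Pool.Agent.Helper18.Coset

/-- A finite-dimensional space of functions is determined by few coordinates. -/
theorem coords (n : ℕ) : ∀ W : Submodule ℚ (ℕ → ℚ), FiniteDimensional ℚ W →
    Module.finrank ℚ W ≤ n →
    ∃ Q : Finset ℕ, Q.card ≤ n ∧ ∀ w ∈ W, (∀ q ∈ Q, w q = 0) → w = 0 := by
  classical
  induction n with
  | zero =>
    intro W hW hn
    refine ⟨∅, by simp, ?_⟩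
    intro w hw _
    have h0 : Module.finrank ℚ W = 0 := by omega
    have : W = ⊥ := Submodule.finrank_eq_zero.1 h0
    rw [this] at hw
    exact (Submodule.mem_bot ℚ).1 hw
  | succ n ih =>
    intro W hW hn
    by_cases hb : ∀ w ∈ W, w = 0
    · exact ⟨∅, by simp, fun w hw _ => hb w hw⟩
    · push Not at hb
      obtain ⟨w, hw, hw0⟩ := hb
      obtain ⟨q, hq⟩ := Function.ne_iff.1 hw0
      have hlt : W ⊓ LinearMap.ker (LinearMap.proj (R := ℚ) (φ := fun _ : ℕ => ℚ) q) < W := by
        refine lt_of_le_of_ne inf_le_left ?_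
        intro h
        have : w ∈ W ⊓ LinearMap.ker (LinearMap.proj (R := ℚ) (φ := fun _ : ℕ => ℚ) q) := by
          rw [h]; exact hw
        apply hq
        have h2 := this.2
        simpa using h2
      have hfd : FiniteDimensional ℚ
          (W ⊓ LinearMap.ker (LinearMap.proj (R := ℚ) (φ := fun _ : ℕ => ℚ) q) :
            Submodule ℚ (ℕ → ℚ)) := Submodule.finiteDimensional_of_le inf_le_left
      have hr := Submodule.finrank_lt_finrank_of_lt hlt
      obtain ⟨Q, hQ, h⟩ := ih _ hfd (by omega)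
      refine ⟨insert q Q, (Finset.card_insert_le _ _).trans (by omega), ?_⟩
      intro x hx hxQ
      apply h x
      · refine ⟨hx, ?_⟩
        simpa using hxQ q (Finset.mem_insert_self _ _)
      · intro q' hq'
        exact hxQ q' (Finset.mem_insert_of_mem hq')

/-- The valuation vector of a unit. -/
noncomputable def vec (γ : ℚˣ) : ℕ → ℚ :=
  fun p => if p.Prime then (padicValRat p ((γ : ℚˣ) : ℚ) : ℚ) else 0

theorem vec_one : vec 1 = 0 := by
  funext p
  simp [vec]

theorem vec_mul (a b : ℚˣ) : vec (a * b) = vec a + vec b := by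
  funext p
  simp only [vec, Pi.add_apply]
  split_ifs with hp
  · have : Fact p.Prime := ⟨hp⟩
    rw [Units.val_mul, padicValRat.mul a.ne_zero b.ne_zero]
    push_cast
    ring
  · simp

theorem vec_inv (a : ℚˣ) : vec a⁻¹ = - vec a := by
  have := vec_mul a a⁻¹
  rw [mul_inv_cancel, vec_one] at this
  exact (neg_eq_of_add_eq_zero_right this.symm).symm

theorem eq_one_of_val {γ : ℚ} (hpos : 0 < γ) (h : ∀ p : ℕ, p.Prime → padicValRat p γ = 0) :
    γ = 1 := by
  have hden : γ.den = 1 := by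
    by_contra hne
    obtain ⟨p, hp, hpd⟩ := Nat.exists_prime_and_dvd hne
    have hf : Fact p.Prime := ⟨hp⟩
    have h1 := h p hp
    have hcop : Nat.Coprime γ.num.natAbs γ.den := γ.reduced
    have hnum : ¬ p ∣ γ.num.natAbs := by
      intro hd
      have := Nat.dvd_gcd hd hpd
      rw [hcop] at this
      exact hp.one_lt.ne' (Nat.dvd_one.1 this)
    have h2 : padicValInt p γ.num = 0 := padicValNat.eq_zero_of_not_dvd hnum
    have h3 : 1 ≤ padicValNat p γ.den := one_le_padicValNat_of_dvd γ.den_ne_zero hpd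
    rw [padicValRat_def, h2] at h1
    omega
  have hnum : γ.num.natAbs = 1 := by
    by_contra hne
    obtain ⟨p, hp, hpd⟩ := Nat.exists_prime_and_dvd hne
    have hf : Fact p.Prime := ⟨hp⟩
    have h1 := h p hp
    have hnz : γ.num.natAbs ≠ 0 := by
      rw [Int.natAbs_ne_zero]
      exact (Rat.num_pos.2 hpos).ne'
    have h2 : 1 ≤ padicValInt p γ.num := one_le_padicValNat_of_dvd hnz hpd
    rw [padicValRat_def, hden] at h1
    have h3 : padicValNat p 1 = 0 := by simp
    rw [h3] at h1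
    omega
  have hn1 : γ.num = 1 := by
    have := Rat.num_pos.2 hpos
    omega
  rw [← Rat.num_div_den γ, hn1, hden]
  simp

/-- Positive elements of a subgroup. -/
def pos (Γ : Subgroup ℚˣ) : Subgroup ℚˣ where
  carrier := {γ | γ ∈ Γ ∧ 0 < ((γ : ℚˣ) : ℚ)}
  one_mem' := ⟨Γ.one_mem, by simp⟩
  mul_mem' := by
    rintro a b ⟨ha, ha'⟩ ⟨hb, hb'⟩
    exact ⟨Γ.mul_mem ha hb, by rw [Units.val_mul]; positivity⟩
  inv_mem' := by
    rintro a ⟨ha, ha'⟩
    exact ⟨Γ.inv_mem ha, by rw [Units.val_inv_eq_inv_val]; positivity⟩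

theorem mem_pos {Γ : Subgroup ℚˣ} {γ : ℚˣ} : γ ∈ pos Γ ↔ γ ∈ Γ ∧ 0 < ((γ : ℚˣ) : ℚ) := Iff.rfl

theorem exists_det (S : Finset ℚˣ) {t : ℕ} (hS : S.card ≤ t) :
    ∃ Q : Finset ℕ, Q.card ≤ t ∧ (∀ p ∈ Q, p.Prime) ∧
      Det (pos (Subgroup.closure (S : Set ℚˣ))) Q := by
  classical
  set W : Submodule ℚ (ℕ → ℚ) := Submodule.span ℚ ((S.image vec : Finset (ℕ → ℚ)) : Set (ℕ → ℚ))
    with hW
  have hfd : FiniteDimensional ℚ W := FiniteDimensional.span_finset ℚ _
  have hrank : Module.finrank ℚ W ≤ t :=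
    (finrank_span_finset_le_card _).trans (Finset.card_image_le.trans hS)
  obtain ⟨Q, hQ, h⟩ := coords t W hfd hrank
  have hmem : ∀ γ ∈ Subgroup.closure (S : Set ℚˣ), vec γ ∈ W := by
    intro γ hγ
    induction hγ using Subgroup.closure_induction with
    | mem x hx =>
      apply Submodule.subset_span
      simp only [Finset.coe_image, Set.mem_image]
      exact ⟨x, hx, rfl⟩
    | one => rw [vec_one]; exact W.zero_mem
    | mul x y _ _ hx hy => rw [vec_mul]; exact W.add_mem hx hy
    | inv x _ hx => rw [vec_inv]; exact W.neg_mem hx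
  refine ⟨Q.filter Nat.Prime, (Finset.card_filter_le _ _).trans hQ,
    fun p hp => (Finset.mem_filter.1 hp).2, ?_⟩
  intro γ hγ hval
  obtain ⟨hγ1, hγ2⟩ := mem_pos.1 hγ
  have h0 : vec γ = 0 := by
    apply h _ (hmem γ hγ1)
    intro q hq
    simp only [vec]
    split_ifs with hp
    · rw [hval q (Finset.mem_filter.2 ⟨hq, hp⟩)]; simp
    · rfl
  apply Units.ext
  rw [Units.val_one]
  apply eq_one_of_val hγ2
  intro p hp
  have := congrFun h0 p
  simp only [vec, if_pos hp, Pi.zero_apply] at this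
  exact_mod_cast this

end Pool.Agent.Helper18.Rank
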